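import Pool.Agent.Run7.h268.U.Grp
import Pool.Agent.Run7.h268.U.Lw
import Pool.Agent.Run7.h268.U.Ty

/-!
# A law for the 2-Selmer ranks of the twists of EVERY elliptic curve with a rational point of order two
# by the products of a fixed number of primes from arbitrary dense sets

The notation of the problem: `E : y² = x³ + a x² + b x`, `2 ^ f a b` is the order of the group of the
squarefree `b₁ ∣ b` for which `N² = b₁ M⁴ + a M² e² + (b / b₁) e⁴` is solvable in `ℝ` and in all `ℚ_p`,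
`s = f a b + f (-2a) (a² - 4b) - 2`. The question is whether `rank E(ℚ)` and `s` have the same parity.

Let `I` be ANY finite set of curves `(a, b)` with `b (a² - 4 b) ≠ 0`. The curve `(a, b)` has the twists
`E^D : y² = x³ + a D x² + b D² x`. Let all the `8 b (a² - 4 b)` divide `q`. The type of a prime `p` which
does not divide `q` is its class modulo `q` together with the answers to the questions, for the curves of
`I`, whether `x² + a x + b` (and `x² - 2 a x + a² - 4 b`) has a root modulo `p` which is a square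
(not a square) modulo `p`.

1. (Every curve.) The group has `2 ^ f` elements, and `4 * 2 ^ rank * #Ш[2] ≤ 2 ^ (f₁ + f₂)`.
2. `f₁` and `f₂` of `E^D`, `D = p_1 ⋯ p_n`, depend only on the types of the `p_i` and on the symbols
   `(p_i / p_j)`.
3. Let `r_1, …, r_n` be ANY different primes which do not divide `q`, and `S` any set of primes which
   contains at least a positive proportion of all primes of the type of each `r_i`. Consider the
   products `D` of `n` different primes `p_i` in `S`, `p_i` of the type of `r_i`. There are between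
   `c X (log log X)^(n-1)/log X` and `C X (log log X)^(n-1)/log X` of them up to `X`. For every property
   `P` of the system of the pairs `(f₁, f₂)` of the curves `E^D`, `E` in `I`, exactly the proportion
   `N(P) / 2^(n(n-1)/2)` of them has the property `P`, where the INTEGER `N(P)` does not depend on `S`,
   and `N(P) ≥ 1` if `r_1 ⋯ r_n` has the property. In particular for exactly the proportion
   `N / 2^(n(n-1)/2)` one has `rank = s = 0` and `Ш[2] = 0` for all the curves `E^D`, `E` in `I`, and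
   `N ≥ 1` if `s = 0` for all the curves `E^D`, `D = r_1 ⋯ r_n`.
4. The type of `p` is determined by the class modulo `q` if for every curve of `I`: `b` or `a² - 4 b` is
   not a square modulo `p`, or `b` or `a² - 4 b` is the square of an integer (that is, `E` or the
   isogenous curve has all its points of order two over `ℚ`).
5. If all the `r_i` are of this kind then the set `S` of all primes can be taken.
-/

set_option autoImplicit false

open Filter Topology

namespace Pool.Agent.Results.MP_e2b281_nt.EveryCurveUniversalLaw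

/-- the curve `y² = x³ + a x² + b x` over `ℚ` -/
def curve (a b : ℤ) : WeierstrassCurve ℚ :=
  { a₁ := 0, a₂ := (a : ℚ), a₃ := 0, a₄ := (b : ℚ), a₆ := 0 }

/-- the squarefree `b₁` which divide `b` for which the quartic is solvable in `ℝ` and all `ℚ_p` -/
def descent (a b : ℤ) : Set ℤ := {b₁ | Squarefree b₁ ∧ b₁ ∣ b ∧
  (∃ N M e : ℝ, (M ≠ 0 ∨ e ≠ 0) ∧
    N ^ 2 = (b₁ : ℝ) * M ^ 4 + (a : ℝ) * M ^ 2 * e ^ 2 + ((b / b₁ : ℤ) : ℝ) * e ^ 4) ∧
  ∀ (p : ℕ) [Fact p.Prime], ∃ N M e : ℚ_[p], (M ≠ 0 ∨ e ≠ 0) ∧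
    N ^ 2 = (b₁ : ℚ_[p]) * M ^ 4 + (a : ℚ_[p]) * M ^ 2 * e ^ 2 + ((b / b₁ : ℤ) : ℚ_[p]) * e ^ 4}

/-- the exponent of the order of the group of these `b₁` -/
noncomputable def f (a b : ℤ) : ℕ := Nat.log 2 (descent a b).ncard

/-- the rank of `W(ℚ)` -/
noncomputable def rank (W : WeierstrassCurve ℚ) : ℕ := Module.finrank ℤ W.toAffine.Point

/-- the elements of `Ш(W/ℚ)` killed by two -/
def ShaTwo (W : WeierstrassCurve ℚ) : Type := {x : Pool.Agent.TH841.NF.D.Sha W // 2 • x = 0}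

/-- the twist `y² = x³ + a D x² + b D² x` of the curve `z = (a, b)` -/
def twist (z : ℤ × ℤ) (D : ℕ) : WeierstrassCurve ℚ := curve (z.1 * D) (z.2 * D ^ 2)

/-- the exponents `f₁`, `f₂` of the twist -/
noncomputable def exps (z : ℤ × ℤ) (D : ℕ) : ℕ × ℕ :=
  (f (z.1 * D) (z.2 * D ^ 2), f (-2 * (z.1 * D)) ((z.1 * D) ^ 2 - 4 * (z.2 * D ^ 2)))

/-- the 2-Selmer rank `s = f₁ + f₂ - 2` of the twist -/
noncomputable def selmerRank (z : ℤ × ℤ) (D : ℕ) : ℤ := (exps z D).1 + (exps z D).2 - 2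

/-- `x² + a x + b` has a root modulo `p` which is a square modulo `p` -/
def SquareRoot (a b : ℤ) (p : ℕ) : Prop :=
  ∃ x : ℤ, (p : ℤ) ∣ x ^ 2 + a * x + b ∧ IsSquare (x : ZMod p)

/-- `x² + a x + b` has a root modulo `p` which is not a square modulo `p` -/
def NonsquareRoot (a b : ℤ) (p : ℕ) : Prop :=
  ∃ x : ℤ, (p : ℤ) ∣ x ^ 2 + a * x + b ∧ ¬ IsSquare (x : ZMod p)

/-- `p` and `p'` have the same type -/
structure SameType (I : Finset (ℤ × ℤ)) (q p p' : ℕ) : Prop where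
  classes : p % q = p' % q
  types : ∀ z ∈ I, (SquareRoot z.1 z.2 p ↔ SquareRoot z.1 z.2 p') ∧
    (NonsquareRoot z.1 z.2 p ↔ NonsquareRoot z.1 z.2 p') ∧
    (SquareRoot (-2 * z.1) (z.1 ^ 2 - 4 * z.2) p ↔ SquareRoot (-2 * z.1) (z.1 ^ 2 - 4 * z.2) p') ∧
    (NonsquareRoot (-2 * z.1) (z.1 ^ 2 - 4 * z.2) p ↔
      NonsquareRoot (-2 * z.1) (z.1 ^ 2 - 4 * z.2) p')

/-- the curves in `I` are elliptic, and all the `8 b (a² - 4 b)` divide `q` -/
def Modulus (I : Finset (ℤ × ℤ)) (q : ℕ) : Prop := 8 ∣ q ∧ ∀ z ∈ I, z.2 ≠ 0 ∧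
  z.1 ^ 2 - 4 * z.2 ≠ 0 ∧ 8 * z.2 * (z.1 ^ 2 - 4 * z.2) ∣ (q : ℤ)

/-- different primes which do not divide `q` -/
structure Primes (q : ℕ) {n : ℕ} (r : Fin n → ℕ) : Prop where
  injective : Function.Injective r
  prime : ∀ i, (r i).Prime
  not_dvd : ∀ i, ¬ r i ∣ q

/-- `D` is the product of `n` different primes `p i` in `S`, `p i` of the type of `r i` -/
def Family (S : Set ℕ) (I : Finset (ℤ × ℤ)) (q : ℕ) {n : ℕ} (r : Fin n → ℕ) (D : ℕ) : Prop :=
  ∃ p : Fin n → ℕ, Function.Injective p ∧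
    (∀ i, (p i).Prime ∧ p i ∈ S ∧ SameType I q (p i) (r i)) ∧ D = ∏ i, p i

/-- at least a positive proportion of the primes up to `Y` is in `S` and has the type of `r i`,
for all large `Y` and all `i` -/
def Dense (S : Set ℕ) (I : Finset (ℤ × ℤ)) (q : ℕ) {n : ℕ} (r : Fin n → ℕ) : Prop :=
  ∀ i, ∃ (δ : ℝ) (Y₀ : ℕ), 0 < δ ∧ ∀ Y : ℕ, Y₀ ≤ Y →
    δ * (Y / Real.log Y) ≤
      (Nat.card {p : ℕ // p ≤ Y ∧ p.Prime ∧ p ∈ S ∧ SameType I q p (r i)} : ℝ)

/-- the number of the `m` with `1 ≤ m ≤ X` and `Q m` -/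
noncomputable def count (Q : ℕ → Prop) (X : ℕ) : ℕ := Nat.card {m : ℕ // 1 ≤ m ∧ m ≤ X ∧ Q m}

/-- exactly the proportion `θ` of the `m` in `F` has the property `Q` -/
def Proportion (F Q : ℕ → Prop) (θ : ℝ) : Prop :=
  Tendsto (fun X : ℕ => (count (fun m => F m ∧ Q m) X : ℝ) / (count F X : ℝ)) atTop (𝓝 θ)

/-- `b` or `a² - 4 b` is not a square modulo `p`, or is the square of an integer -/
def Determined (z : ℤ × ℤ) (p : ℕ) : Prop :=
  ¬ IsSquare (z.2 : ZMod p) ∨ ¬ IsSquare ((z.1 ^ 2 - 4 * z.2 : ℤ) : ZMod p) ∨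
    IsSquare z.2 ∨ IsSquare (z.1 ^ 2 - 4 * z.2)

section proof

open Run7.h268.U
open Pool.Agent.Y703.CQ (nr)
open Pool.Agent.V11291.FK (Dn)
open Pool.Agent.Y682 (MP)

theorem rank_MP (W : WeierstrassCurve ℚ) : rank W = Module.finrank ℤ (MP W) := by
  have key : ∀ d : DecidableEq ℚ, @Module.finrank ℤ W.toAffine.Point _
      (@WeierstrassCurve.Affine.Point.instAddCommGroup ℚ _ W.toAffine d).toAddCommMonoid
      (@AddCommGroup.toIntModule _
        (@WeierstrassCurve.Affine.Point.instAddCommGroup ℚ _ W.toAffine d)) =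
      Module.finrank ℤ (MP W) := by
    intro d
    rw [Subsingleton.elim d (Classical.decEq ℚ)]
    rfl
  exact key _

theorem ncard_f (a : ℤ) {b : ℤ} (hb : b ≠ 0) : (descent a b).ncard = 2 ^ f a b := by
  obtain ⟨k, hk⟩ := ncard_pow a hb
  have h1 : (descent a b).ncard = 2 ^ k := hk
  unfold f
  rw [h1, Nat.log_pow one_lt_two]

theorem rank_bound {a b : ℤ} (hb : b ≠ 0) (hab : a ^ 2 - 4 * b ≠ 0) :
    Finite (ShaTwo (curve a b)) ∧ 4 * (2 ^ rank (curve a b) * Nat.card (ShaTwo (curve a b))) ≤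
      2 ^ (f a b + f (-2 * a) (a ^ 2 - 4 * b)) := by
  obtain ⟨h1, h2⟩ := rank_sha (W := curve a b) hb hab ⟨rfl, rfl, rfl, rfl, rfl,
    by exact_mod_cast hb, by exact_mod_cast hab⟩
  have h3 := ncard_f a hb
  have h4 := ncard_f (-2 * a) hab
  rw [rank_MP, pow_add, ← h3, ← h4]
  exact ⟨h1, h2⟩

theorem zero_of {a b : ℤ} (hb : b ≠ 0) (hab : a ^ 2 - 4 * b ≠ 0)
    (h : f a b + f (-2 * a) (a ^ 2 - 4 * b) = 2) :
    rank (curve a b) = 0 ∧ Nat.card (ShaTwo (curve a b)) = 1 := by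
  obtain ⟨h1, h2⟩ := rank_bound hb hab
  rw [h] at h2
  have h3 : 0 < Nat.card (ShaTwo (curve a b)) := by
    have : Nonempty (ShaTwo (curve a b)) := ⟨⟨0, smul_zero 2⟩⟩
    exact Nat.card_pos
  have h4 : 0 < 2 ^ rank (curve a b) := by positivity
  have h5 : 2 ^ rank (curve a b) * Nat.card (ShaTwo (curve a b)) = 1 := by
    have := Nat.mul_pos h4 h3
    omega
  have h6 : 2 ^ rank (curve a b) = 1 := Nat.dvd_one.1 ⟨_, h5.symm⟩
  have h7 : Nat.card (ShaTwo (curve a b)) = 1 :=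
    Nat.dvd_one.1 ⟨2 ^ rank (curve a b), by rw [mul_comm]; exact h5.symm⟩
  refine ⟨?_, h7⟩
  by_contra h8
  have h9 : 2 ≤ 2 ^ rank (curve a b) := by
    calc 2 = 2 ^ 1 := rfl
      _ ≤ _ := Nat.pow_le_pow_right (by norm_num) (by omega)
  omega

theorem mdl₁ {I : Finset (ℤ × ℤ)} {q : ℕ} (h : Modulus I q) {z : ℤ × ℤ} (hz : z ∈ I) :
    Mdl z.1 z.2 q := by
  obtain ⟨h1, h2, h3⟩ := h.2 z hz
  refine ⟨h.1, ?_, fun l hl hd => ?_, h1, h2⟩
  · exact dvd_trans ⟨2 * (z.1 ^ 2 - 4 * z.2), by ring⟩ h3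
  · have h4 : (l : ℤ) ∣ q := (hd.trans ⟨4, by ring⟩ :
      (l : ℤ) ∣ 8 * z.2 * (z.1 ^ 2 - 4 * z.2)).trans h3
    exact_mod_cast h4

theorem mdl₂ {I : Finset (ℤ × ℤ)} {q : ℕ} (h : Modulus I q) {z : ℤ × ℤ} (hz : z ∈ I) :
    Mdl (-2 * z.1) (z.1 ^ 2 - 4 * z.2) q := by
  obtain ⟨h1, h2, h3⟩ := h.2 z hz
  refine ⟨h.1, ?_, fun l hl hd => ?_, h2, ?_⟩
  · exact dvd_trans ⟨2 * z.2, by ring⟩ h3
  · have e : 2 * (z.1 ^ 2 - 4 * z.2) * ((-2 * z.1) ^ 2 - 4 * (z.1 ^ 2 - 4 * z.2)) =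
        4 * (8 * z.2 * (z.1 ^ 2 - 4 * z.2)) := by ring
    rw [e] at hd
    rcases Int.Prime.dvd_mul' hl hd with h4 | h4
    · have h5 : (l : ℤ) ∣ 8 := h4.trans (by norm_num)
      have h6 : l ∣ 8 := by exact_mod_cast h5
      exact h6.trans h.1
    · have h5 : (l : ℤ) ∣ q := h4.trans h3
      exact_mod_cast h5
  · rw [dual_disc]
    exact mul_ne_zero (by norm_num) h1

theorem prs_of {q n : ℕ} {p : Fin n → ℕ} (h : Primes q p) : Prs q p :=
  ⟨h.injective, h.prime, h.not_dvd⟩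

theorem exps_congr {I : Finset (ℤ × ℤ)} {q n : ℕ} {p p' : Fin n → ℕ} (h : Modulus I q)
    (hp : Primes q p) (hp' : Primes q p') (hs : ∀ i, SameType I q (p i) (p' i))
    (hnr : ∀ i j, i ≠ j → nr (p j) (p i) = nr (p' j) (p' i)) {z : ℤ × ℤ} (hz : z ∈ I) :
    exps z (∏ i, p i) = exps z (∏ i, p' i) := by
  have h1 := ncard_congr (mdl₁ h hz) (prs_of hp) (prs_of hp')
    (fun i => ⟨(hs i).classes, ((hs i).types z hz).1, ((hs i).types z hz).2.1⟩) hnr
  have h2 := ncard_congr (mdl₂ h hz) (prs_of hp) (prs_of hp')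
    (fun i => ⟨(hs i).classes, ((hs i).types z hz).2.2.1, ((hs i).types z hz).2.2.2⟩) hnr
  have e1 : ∀ D : ℤ, -2 * (z.1 * D) = -2 * z.1 * D := fun D => by ring
  have e2 : ∀ D : ℤ, (z.1 * D) ^ 2 - 4 * (z.2 * D ^ 2) = (z.1 ^ 2 - 4 * z.2) * D ^ 2 := fun D => by
    ring
  unfold exps f
  rw [e1, e2, e1, e2, Nat.cast_prod, Nat.cast_prod]
  exact Prod.ext (congrArg (Nat.log 2) h1) (congrArg (Nat.log 2) h2)

theorem equiv_type (I : Finset (ℤ × ℤ)) (q : ℕ) : Equivalence (SameType I q) where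
  refl _ := ⟨rfl, fun _ _ => ⟨Iff.rfl, Iff.rfl, Iff.rfl, Iff.rfl⟩⟩
  symm h := ⟨h.classes.symm, fun z hz => ⟨(h.types z hz).1.symm, (h.types z hz).2.1.symm,
    (h.types z hz).2.2.1.symm, (h.types z hz).2.2.2.symm⟩⟩
  trans h h' := ⟨h.classes.trans h'.classes, fun z hz =>
    ⟨(h.types z hz).1.trans (h'.types z hz).1, (h.types z hz).2.1.trans (h'.types z hz).2.1,
      (h.types z hz).2.2.1.trans (h'.types z hz).2.2.1,
      (h.types z hz).2.2.2.trans (h'.types z hz).2.2.2⟩⟩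

theorem odd_of {q : ℕ} (h8 : 8 ∣ q) {r x : ℕ} (hr : r.Prime) (hrq : ¬ r ∣ q) (h : x % q = r % q) :
    x ≠ 2 ∧ Run7.h268.FN.e4 x = Run7.h268.FN.e4 r := by
  have h2 : x % 8 = r % 8 := by
    rw [← Nat.mod_mod_of_dvd x h8, h, Nat.mod_mod_of_dvd _ h8]
  have h3 : r ≠ 2 := fun h4 => hrq (by rw [h4]; exact (by norm_num : 2 ∣ 8).trans h8)
  have h4 : r % 2 = 1 := hr.eq_two_or_odd.resolve_left h3
  refine ⟨by omega, ?_⟩
  unfold Run7.h268.FN.e4
  have h5 : x % 4 = r % 4 := by omega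
  rw [h5]

theorem primes_of {I : Finset (ℤ × ℤ)} {q n : ℕ} {r p : Fin n → ℕ} (hr : Primes q r)
    (hp : Function.Injective p) (h : ∀ i, (p i).Prime ∧ SameType I q (p i) (r i)) : Primes q p := by
  refine ⟨hp, fun i => (h i).1, fun i hd => ?_⟩
  have h1 : p i ∣ r i := by
    rw [← Nat.dvd_mod_iff hd, ← (h i).2.classes, Nat.dvd_mod_iff hd]
  have h2 : p i = r i := (Nat.prime_dvd_prime_iff_eq (h i).1 (hr.prime i)).1 h1
  exact hr.not_dvd i (by rw [← h2]; exact hd)

theorem count_congr {Q Q' : ℕ → Prop} (h : ∀ m, Q m ↔ Q' m) : count Q = count Q' := by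
  rw [funext fun m => propext (h m)]

theorem prop_congr {F Q Q' : ℕ → Prop} {θ : ℝ} (h : ∀ m, F m → (Q m ↔ Q' m))
    (hp : Proportion F Q θ) : Proportion F Q' θ := by
  unfold Proportion at hp ⊢
  rw [count_congr (Q := fun m => F m ∧ Q' m) (Q' := fun m => F m ∧ Q m) fun m =>
    and_congr_right fun hm => (h m hm).symm]
  exact hp

theorem same_of {I : Finset (ℤ × ℤ)} {q p p' : ℕ} (h : Modulus I q) (hp : p.Prime) (hp' : p'.Prime)
    (hd : ¬ p ∣ q) (hd' : ¬ p' ∣ q) (hdet : ∀ z ∈ I, Determined z p) (hm : p % q = p' % q) :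
    SameType I q p p' := by
  refine ⟨hm, fun z hz => ?_⟩
  obtain ⟨h1, h2, h3⟩ := h.2 z hz
  have hg : Good z.1 z.2 q p p' := ⟨h1, h2, h3, hp, hp', hd, hd', hm⟩
  have key : TyEq z.1 z.2 p p' := by
    rcases hdet z hz with h4 | h4 | ⟨g, h4⟩ | ⟨g, h4⟩
    · exact ty_B hg h4
    · exact ty_D hg h4
    · exact ty_dual hg (g := g) (by rw [h4, pow_two])
    · exact ty_full hg (g := g) (by rw [h4, pow_two])
  exact ⟨key.s1, key.n1, key.s2, key.n2⟩

theorem dense_univ {I : Finset (ℤ × ℤ)} {q n : ℕ} {r : Fin n → ℕ} (h : Modulus I q)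
    (hr : Primes q r) (hdet : ∀ i, ∀ z ∈ I, Determined z (r i)) : Dense Set.univ I q r := by
  intro i
  have hq : 0 < q := Nat.pos_of_ne_zero fun h0 => hr.not_dvd i (by rw [h0]; exact dvd_zero _)
  have hc : (r i).Coprime q := (Nat.Prime.coprime_iff_not_dvd (hr.prime i)).2 (hr.not_dvd i)
  have hc' : (r i % q).Coprime q := by
    show (r i % q).gcd q = 1
    rw [← Nat.gcd_rec]
    exact hc.symm
  obtain ⟨δ, Y₀, hδ, h0⟩ := Pool.Agent.V11291.FK.Cb.pai_low' q hq (r i % q) hc'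
  refine ⟨δ, Y₀, hδ, fun Y hY => (h0 Y hY).trans (le_of_eq ?_)⟩
  congr 1
  symm
  refine Nat.subtype_card _ fun p => ?_
  simp only [Finset.mem_filter, Finset.mem_range, Nat.lt_succ_iff, Nat.mod_mod]
  constructor
  · rintro ⟨h1, h2, h3⟩
    have hd : ¬ p ∣ q := fun hd => by
      have h4 : p ∣ r i := by rw [← Nat.dvd_mod_iff hd, ← h3, Nat.dvd_mod_iff hd]
      have h5 : p = r i := (Nat.prime_dvd_prime_iff_eq h2 (hr.prime i)).1 h4
      exact hr.not_dvd i (by rw [← h5]; exact hd)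
    exact ⟨h1, h2, trivial, (equiv_type I q).symm (same_of h (hr.prime i) h2 (hr.not_dvd i) hd
      (hdet i) h3.symm)⟩
  · rintro ⟨h1, h2, -, h3⟩
    exact ⟨h1, h2, h3.classes⟩

end proof

/-- **The law for every curve, every finite set of types and every dense set of primes.** -/
theorem result :
    -- every curve: the order of the group, the rank and Sha
    (∀ a b : ℤ, b ≠ 0 → a ^ 2 - 4 * b ≠ 0 → (descent a b).ncard = 2 ^ f a b ∧
      Finite (ShaTwo (curve a b)) ∧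
      4 * (2 ^ rank (curve a b) * Nat.card (ShaTwo (curve a b))) ≤
        2 ^ (f a b + f (-2 * a) (a ^ 2 - 4 * b))) ∧
    -- the exponents depend only on the types and on the symbols
    (∀ (I : Finset (ℤ × ℤ)) (q n : ℕ) (p p' : Fin n → ℕ), Modulus I q → Primes q p → Primes q p' →
      (∀ i, SameType I q (p i) (p' i)) →
      (∀ i j, i ≠ j → (IsSquare (p i : ZMod (p j)) ↔ IsSquare (p' i : ZMod (p' j)))) →
      ∀ z ∈ I, exps z (∏ i, p i) = exps z (∏ i, p' i)) ∧
    -- the law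
    (∀ (I : Finset (ℤ × ℤ)) (q n : ℕ) (r : Fin n → ℕ), Modulus I q → 1 ≤ n → Primes q r →
      ∃ N : ((I → ℕ × ℕ) → Prop) → ℕ, (∀ P, N P ≤ 2 ^ (n * (n - 1) / 2)) ∧
        (∀ P, P (fun z => exps z.1 (∏ i, r i)) → 1 ≤ N P) ∧
        ∀ S : Set ℕ, Dense S I q r →
          (∃ (c C : ℝ) (X₀ : ℕ), 0 < c ∧ 0 < C ∧ ∀ X : ℕ, X₀ ≤ X →
            c * (X * Real.log (Real.log X) ^ (n - 1) / Real.log X) ≤
              (count (Family S I q r) X : ℝ) ∧
            (count (Family S I q r) X : ℝ) ≤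
              C * (X * Real.log (Real.log X) ^ (n - 1) / Real.log X)) ∧
          (∀ P : (I → ℕ × ℕ) → Prop, Proportion (Family S I q r)
            (fun D => P fun z => exps z.1 D) ((N P : ℝ) / 2 ^ (n * (n - 1) / 2))) ∧
          Proportion (Family S I q r) (fun D => ∀ z ∈ I,
            (rank (twist z D) : ℤ) = selmerRank z D ∧ selmerRank z D = 0 ∧
              Nat.card (ShaTwo (twist z D)) = 1)
            ((N (fun v => ∀ z, (v z).1 + (v z).2 = 2) : ℝ) / 2 ^ (n * (n - 1) / 2)) ∧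
          ((∀ z ∈ I, selmerRank z (∏ i, r i) = 0) →
            1 ≤ N (fun v => ∀ z, (v z).1 + (v z).2 = 2))) ∧
    -- the types and the classes
    (∀ (I : Finset (ℤ × ℤ)) (q p p' : ℕ), Modulus I q → p.Prime → p'.Prime → ¬ p ∣ q → ¬ p' ∣ q →
      (∀ z ∈ I, Determined z p) → (SameType I q p p' ↔ p % q = p' % q)) ∧
    -- all primes
    (∀ (I : Finset (ℤ × ℤ)) (q n : ℕ) (r : Fin n → ℕ), Modulus I q → Primes q r →
      (∀ i, ∀ z ∈ I, Determined z (r i)) → Dense Set.univ I q r) := by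
  classical
  refine ⟨fun a b hb hab => ⟨ncard_f a hb, (rank_bound hb hab).1, (rank_bound hb hab).2⟩,
    fun I q n p p' h hp hp' hs hnr z hz => exps_congr h hp hp' hs (fun i j hij => ?_) hz,
    fun I q n r h hn hr => ?_, fun I q p p' h hp hp' hd hd' hdet =>
      ⟨fun h1 => h1.classes, fun h1 => same_of h hp hp' hd hd' hdet h1⟩,
    fun I q n r h hr hdet => dense_univ h hr hdet⟩
  · unfold Pool.Agent.Y703.CQ.nr
    rw [if_congr (hnr i j hij) rfl rfl]
  · have hw : ∀ p p' : Fin n → ℕ, Function.Injective p → Function.Injective p' →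
        (∀ i, (p i).Prime ∧ SameType I q (p i) (r i)) →
        (∀ i, (p' i).Prime ∧ SameType I q (p' i) (r i)) →
        (∀ k l, Pool.Agent.Y703.CQ.nr (p k) (p l) = Pool.Agent.Y703.CQ.nr (p' k) (p' l)) →
        (fun z : I => exps z.1 (∏ i, p i)) = fun z : I => exps z.1 (∏ i, p' i) := by
      intro p p' hp hp' h1 h2 h3
      funext z
      exact exps_congr h (primes_of hr hp h1) (primes_of hr hp' h2)
        (fun i => (equiv_type I q).trans (h1 i).2 ((equiv_type I q).symm (h2 i).2))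
        (fun i j _ => h3 j i) z.2
    obtain ⟨N, hN1, hN2, hN3⟩ := Run7.h268.U.law_cnt (E := SameType I q) (equiv_type I q) (r := r)
      (e := fun i => Run7.h268.FN.e4 (r i))
      (fun i x _ hx => odd_of h.1 (hr.prime i) (hr.not_dvd i) hx.classes) hn hr.injective hr.prime
      (w := fun D => fun z : I => exps z.1 D) hw
    refine ⟨N, hN2, hN1, fun S hS => ?_⟩
    have hD : ∀ i, Pool.Agent.V11291.FK.Dn fun p => p.Prime ∧ p ∈ S ∧ SameType I q p (r i) := by
      intro i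
      obtain ⟨δ, Y₀, hδ, h1⟩ := hS i
      exact Run7.h268.FN.dn_of (Q := fun p => p.Prime ∧ p ∈ S ∧ SameType I q p (r i)) hδ h1
        fun p hp => hp
    obtain ⟨h1, h2⟩ := hN3 S hD
    refine ⟨h1, h2, ?_, fun h3 => hN1 _ fun z => ?_⟩
    · refine prop_congr (fun D hDD => ?_) (h2 fun v => ∀ z, (v z).1 + (v z).2 = 2)
      have hD0 : (D : ℤ) ≠ 0 := by
        obtain ⟨p, -, hp, rfl⟩ := hDD
        exact_mod_cast Finset.prod_ne_zero_iff.2 fun i _ => (hp i).1.ne_zero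
      constructor
      · intro h3 z hz
        obtain ⟨g1, g2, -⟩ := h.2 z hz
        have h4 := h3 ⟨z, hz⟩
        have h5 : selmerRank z D = 0 := by
          unfold selmerRank
          simp only at h4
          omega
        obtain ⟨h6, h7⟩ := zero_of (a := z.1 * D) (b := z.2 * D ^ 2)
          (mul_ne_zero g1 (pow_ne_zero 2 hD0)) (by
            have e : (z.1 * (D : ℤ)) ^ 2 - 4 * (z.2 * (D : ℤ) ^ 2) =
              (z.1 ^ 2 - 4 * z.2) * (D : ℤ) ^ 2 := by ring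
            rw [e]
            exact mul_ne_zero g2 (pow_ne_zero 2 hD0)) h4
        refine ⟨?_, h5, h7⟩
        have h8 : rank (twist z D) = 0 := h6
        rw [h8, h5]
        rfl
      · intro h3 z
        have h4 := (h3 z.1 z.2).2.1
        unfold selmerRank at h4
        simp only
        omega
    · have h4 := h3 z.1 z.2
      unfold selmerRank at h4
      simp only
      omega

end Pool.Agent.Results.MP_e2b281_nt.EveryCurveUniversalLaw
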