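import Pool.Agent.Run7.h268.FN.Tns

/-!
# The exact law of the 2-Selmer rank of the descent by isogenies of degree two, for twists of elliptic
# curves without complex multiplication by products of a fixed number of primes from arbitrary dense sets

The notation of the problem: for `E : y² = x³ + a x² + b x` let `2 ^ f a b` be the number of the
squarefree `b₁` which divide `b` for which `N² = b₁ M⁴ + a M² e² + (b / b₁) e⁴` is solvable in `ℝ` and
all `ℚ_p`, and `s = f a b + f (-2a) (a² - 4b) - 2`. The question is whether `rank E(ℚ)` and `s` have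
the same parity.

The curves: let `u`, `v` be coprime integers, one odd, the other even, `u v ≠ 0`, `r = u² + v²`,
`s' = u² - 2uv - v²`, `t = u² + 2uv - v²`, and `E^m : y² = x³ - 4 r m x² + 2 s'² m² x` (the
`j`-invariant is not an integer, so there is no complex multiplication). `m` is admissible for
`(u, v)` if it is odd, squarefree, `-r m` is not a square modulo any prime divisor of `s'` and `r m` is
not a square modulo any prime divisor of `t`. The team's theorem `MP_03e5d0_nt/CorankLawNonCMTwists`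
finds the Selmer groups and their law for ALL admissible `m`, of which almost all have many prime
factors.

Here `m` runs over the products of `n` different primes `p_1, …, p_n` from an ARBITRARY set `S` of
primes, `p_i` in the class `c_i` modulo `q`; `S` contains at least a positive proportion of the primes
up to `Y` in each of these classes, for all large `Y`. Let `J` be the set of the `i` such that `c_i` is
`1` or `7` modulo `8`, `e_i = 0` if `c_i = 1` modulo `4` and `e_i = 1` otherwise.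

1. For admissible `m` both groups of the problem have the order `2 ^ (k+1)`, where `k` is the corank of an
   explicit matrix over `𝔽₂` of quadratic symbols of the prime factors of `m`; so `s = 2 k`, and
   `2 ^ rank #Ш[2] ≤ 2 ^ s`.
2. `I` is any nonempty finite set of such pairs `(u, v)`; `q` is divisible by `16` and by all the `s' t`,
   and `c_1 ⋯ c_n` satisfies the conditions at the primes dividing `s' t` (so all the `m` are admissible
   for all the pairs). There are between `a X (log log X)^(n-1)/log X` and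
   `C X (log log X)^(n-1)/log X` such `m ≤ X`, and for every `k ≥ 0` exactly the proportion `prop c k`
   of them has the property that `s = 2 k` for ALL the curves `E^m`, `(u, v)` in `I`: the proportion of
   the matrices of corank `k` among the matrices `M` over `𝔽₂`, indexed by `J`, with
   `M_ij + M_ji = e_i e_j` for `i ≠ j` (and with given row sums if `J` is everything). For exactly the
   proportion `prop c 0` one has `rank = s = 0` for all the curves.
3. If some `c_i` is `3` or `5` modulo `8` and at most one is `7` modulo `8`, then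
   `prop c 0 = ∏_{i < (j+1)/2} (1 - 2^{-(2i+1)})`, `j = #J`, which is more than `0.4194`.
4. For every finite set of pairs with pairwise coprime `s' t` and every `n ≥ 1` there are such `q`, `c`,
   and the set of all primes is dense enough.
-/

set_option autoImplicit false

open Filter Topology

namespace Pool.Agent.Results.MP_e2b281_nt.FixedNumberNonCMTwists

/-- the curve `y² = x³ + a x² + b x` over `ℚ` -/
def curve (a b : ℤ) : WeierstrassCurve ℚ :=
  { a₁ := 0, a₂ := (a : ℚ), a₃ := 0, a₄ := (b : ℚ), a₆ := 0 }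

/-- the squarefree `b₁` which divide `b` for which the quartic is solvable in `ℝ` and all `ℚ_p` -/
def descent (a b : ℤ) : Set ℤ := {b₁ | Squarefree b₁ ∧ b₁ ∣ b ∧
  (∃ N M e : ℝ, (M ≠ 0 ∨ e ≠ 0) ∧
    N ^ 2 = (b₁ : ℝ) * M ^ 4 + (a : ℝ) * M ^ 2 * e ^ 2 + ((b / b₁ : ℤ) : ℝ) * e ^ 4) ∧
  ∀ (p : ℕ) [Fact p.Prime], ∃ N M e : ℚ_[p], (M ≠ 0 ∨ e ≠ 0) ∧
    N ^ 2 = (b₁ : ℚ_[p]) * M ^ 4 + (a : ℚ_[p]) * M ^ 2 * e ^ 2 + ((b / b₁ : ℤ) : ℚ_[p]) * e ^ 4}

/-- the exponent of the order of the group of these `b₁` -/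
noncomputable def f (a b : ℤ) : ℕ := Nat.log 2 (descent a b).ncard

/-- the 2-Selmer rank `s = f₁ + f₂ - 2` of the problem -/
noncomputable def selmerRank (a b : ℤ) : ℤ := f a b + f (-2 * a) (a ^ 2 - 4 * b) - 2

/-- the rank of `W(ℚ)` -/
noncomputable def rank (W : WeierstrassCurve ℚ) : ℕ := Module.finrank ℤ W.toAffine.Point

/-- the elements of `Ш(W/ℚ)` killed by two -/
def ShaTwo (W : WeierstrassCurve ℚ) : Type := {x : Pool.Agent.TH841.NF.D.Sha W // 2 • x = 0}

/-- `u² + v²` -/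
def r (u v : ℤ) : ℤ := u ^ 2 + v ^ 2

/-- `u² - 2 u v - v²` -/
def s (u v : ℤ) : ℤ := u ^ 2 - 2 * u * v - v ^ 2

/-- `u² + 2 u v - v²` -/
def t (u v : ℤ) : ℤ := u ^ 2 + 2 * u * v - v ^ 2

/-- the pairs of parameters -/
structure Pair (u v : ℤ) : Prop where
  coprime : IsCoprime u v
  parity : Odd (u + v)
  ne : u * v ≠ 0

/-- the coefficients of the curve `E^m : y² = x³ - 4 r m x² + 2 s² m² x` -/
def A (u v : ℤ) (m : ℕ) : ℤ := -4 * r u v * m

/-- the coefficients of the curve `E^m : y² = x³ - 4 r m x² + 2 s² m² x` -/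
def B (u v : ℤ) (m : ℕ) : ℤ := 2 * s u v ^ 2 * m ^ 2

/-- the conditions at the primes which divide `s t` -/
structure Cond (u v : ℤ) (m : ℕ) : Prop where
  atS : ∀ p : ℕ, p.Prime → (p : ℤ) ∣ s u v → ¬ IsSquare ((-(r u v * m) : ℤ) : ZMod p)
  atT : ∀ p : ℕ, p.Prime → (p : ℤ) ∣ t u v → ¬ IsSquare ((r u v * m : ℤ) : ZMod p)

/-- `m` is admissible for `(u, v)` -/
structure Admissible (u v : ℤ) (m : ℕ) : Prop where
  squarefree : Squarefree m
  odd : Odd m
  cond : Cond u v m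

open Classical in
/-- `1` if `q` is not a square modulo `p`, else `0` -/
noncomputable def nr (p q : ℕ) : ZMod 2 := if IsSquare (q : ZMod p) then 0 else 1

/-- `1` if `p` is `7` or `9` modulo `16`, else `0` -/
def g (p : ℕ) : ZMod 2 := if p % 16 = 7 ∨ p % 16 = 9 then 1 else 0

/-- `0` if `p` is `1` modulo `4`, else `1` -/
def e (p : ℕ) : ZMod 2 := if p % 4 = 1 then 0 else 1

/-- the prime divisors of `m` which are `1` or `7` modulo `8` -/
def primes (m : ℕ) : Finset ℕ := m.primeFactors.filter fun p => p % 8 = 1 ∨ p % 8 = 7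

/-- the matrix of `m` -/
noncomputable def M (m : ℕ) : Matrix (primes m) (primes m) (ZMod 2) := fun p q =>
  if p = q then ∑ l ∈ m.primeFactors, nr p l + g p else nr p q

/-- its corank -/
noncomputable def corank (m : ℕ) : ℕ := (primes m).card - (M m).rank

/-- `m` is the product of `n` different primes `p i` in `S` with `p i = c i` modulo `q` -/
def Family (S : Set ℕ) (q : ℕ) {n : ℕ} (c : Fin n → ℕ) (m : ℕ) : Prop :=
  ∃ p : Fin n → ℕ, Function.Injective p ∧ (∀ i, (p i).Prime ∧ p i ∈ S ∧ p i % q = c i) ∧ m = ∏ i, p i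

/-- at least a positive proportion of the primes up to `Y` is in `S` and in the class `c i` modulo `q`,
for all large `Y` and all `i` -/
def Dense (S : Set ℕ) (q : ℕ) {n : ℕ} (c : Fin n → ℕ) : Prop :=
  ∀ i, ∃ (δ : ℝ) (Y₀ : ℕ), 0 < δ ∧ ∀ Y : ℕ, Y₀ ≤ Y →
    δ * (Y / Real.log Y) ≤ (Nat.card {p : ℕ // p ≤ Y ∧ p.Prime ∧ p ∈ S ∧ p % q = c i} : ℝ)

/-- `16` and all the `s t` divide `q`, the classes are odd, and their product satisfies the
conditions -/
structure Classes (I : Finset (ℤ × ℤ)) (q : ℕ) {n : ℕ} (c : Fin n → ℕ) : Prop where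
  sixteen : 16 ∣ q
  odd : ∀ i, Odd (c i)
  bad : ∀ z ∈ I, s z.1 z.2 * t z.1 z.2 ∣ (q : ℤ)
  cond : ∀ z ∈ I, Cond z.1 z.2 (∏ i, c i)

/-- the indices of the classes `1` and `7` modulo `8` -/
def J {n : ℕ} (c : Fin n → ℕ) : Finset (Fin n) :=
  Finset.univ.filter fun i => c i % 8 = 1 ∨ c i % 8 = 7

/-- the possible matrices -/
def Mats {n : ℕ} (c : Fin n → ℕ) : Set (Matrix (J c) (J c) (ZMod 2)) :=
  {M | (∀ i j : J c, i ≠ j → M i j + M j i = e (c i) * e (c j)) ∧
    (J c = Finset.univ → ∀ i : J c, ∑ j, M i j = g (c i))}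

/-- the proportion of the matrices of corank `k` -/
noncomputable def prop {n : ℕ} (c : Fin n → ℕ) (k : ℕ) : ℝ :=
  ({M | M ∈ Mats c ∧ M.rank + k = (J c).card}.ncard : ℝ) / ((Mats c).ncard : ℝ)

/-- the number of the `m` with `1 ≤ m ≤ X` and `Q m` -/
noncomputable def count (Q : ℕ → Prop) (X : ℕ) : ℕ := Nat.card {m : ℕ // 1 ≤ m ∧ m ≤ X ∧ Q m}

/-- exactly the proportion `θ` of the `m` in `F` has the property `Q` -/
def Proportion (F Q : ℕ → Prop) (θ : ℝ) : Prop :=
  Tendsto (fun X : ℕ => (count (fun m => F m ∧ Q m) X : ℝ) / (count F X : ℝ)) atTop (𝓝 θ)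

section proof

open Run7.h843.R (MatR SR f16)
open Run7.h843.N (Good)
open Run7.h268.FN (Prd cnt law_prd mj frc_mats mats_symm ex frc)
open Pool.Agent.V11291.FK (Dn)
open Pool.Agent.Y682 (MP)

theorem M_eq (m : ℕ) : @Eq (Matrix (SR m) (SR m) (ZMod 2)) (M m) (MatR m) := by
  refine Matrix.ext fun p q => ?_
  show (if p = q then ∑ r ∈ m.primeFactors, Pool.Agent.Y703.CQ.nr p r + f16 p
    else Pool.Agent.Y703.CQ.nr p q) = Pool.Agent.Y703.CQ.nr p q +
      if p = q then ∑ r ∈ m.primeFactors, Pool.Agent.Y703.CQ.nr p r + f16 p else 0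
  by_cases h : p = q
  · rw [if_pos h, if_pos h, ← h, Run7.h843.Desc.nr_self, zero_add]
  · rw [if_neg h, if_neg h, add_zero]

theorem rank_eq_rank (m : ℕ) : (M m).rank = (MatR m).rank :=
  congrArg (fun N : Matrix (SR m) (SR m) (ZMod 2) => N.rank) (M_eq m)

theorem corank_iff (m k : ℕ) : corank m = k ↔ (MatR m).rank + k = (SR m).card := by
  have h1 : (MatR m).rank ≤ (SR m).card := by
    refine (Matrix.rank_le_card_width _).trans (le_of_eq ?_)
    rw [Fintype.card_coe]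
  have h2 : corank m = (SR m).card - (MatR m).rank := by
    unfold corank
    rw [rank_eq_rank]
    rfl
  rw [h2]
  omega

theorem good_of {u v : ℤ} (h : Pair u v) : Good (u, v) :=
  ⟨h.coprime, Int.odd_iff.1 h.parity⟩

theorem adm_of {u v : ℤ} {m : ℕ} (hm : Admissible u v m) : Run7.h843.N.Adm u v m :=
  ⟨hm.squarefree, Nat.odd_iff.1 hm.odd, hm.cond.atS, hm.cond.atT⟩

theorem rank_MP (W : WeierstrassCurve ℚ) : rank W = Module.finrank ℤ (MP W) := by
  have key : ∀ d : DecidableEq ℚ, @Module.finrank ℤ W.toAffine.Point _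
      (@WeierstrassCurve.Affine.Point.instAddCommGroup ℚ _ W.toAffine d).toAddCommMonoid
      (@AddCommGroup.toIntModule _
        (@WeierstrassCurve.Affine.Point.instAddCommGroup ℚ _ W.toAffine d)) =
      Module.finrank ℤ (MP W) := by
    intro d
    rw [Subsingleton.elim d (Classical.decEq ℚ)]
    rfl
  exact key _

theorem isT {u v : ℤ} (h : Pair u v) {m : ℕ} (hm : m ≠ 0) :
    Pool.Agent.Y682.IsT (curve (A u v m) (B u v m)) ((-4 * r u v * m : ℤ) : ℚ)
      ((2 * s u v ^ 2 * m ^ 2 : ℤ) : ℚ) := by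
  have hg := good_of h
  have hs0 : (s u v : ℚ) ≠ 0 := by exact_mod_cast hg.s0
  have ht0 : (t u v : ℚ) ≠ 0 := by exact_mod_cast hg.t0
  have hm0 : (m : ℚ) ≠ 0 := by exact_mod_cast hm
  refine ⟨rfl, rfl, rfl, rfl, rfl, ?_, ?_⟩
  · push_cast
    exact mul_ne_zero (mul_ne_zero two_ne_zero (pow_ne_zero 2 hs0)) (pow_ne_zero 2 hm0)
  · have e : (((-4 * r u v * (m : ℤ) : ℤ) : ℚ)) ^ 2 -
        4 * ((2 * s u v ^ 2 * (m : ℤ) ^ 2 : ℤ) : ℚ) = 8 * (t u v : ℚ) ^ 2 * (m : ℚ) ^ 2 := by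
      unfold r s t
      push_cast
      ring
    rw [e]
    exact mul_ne_zero (mul_ne_zero (by norm_num) (pow_ne_zero 2 ht0)) (pow_ne_zero 2 hm0)

theorem f1_eq {u v : ℤ} (h : Pair u v) {m : ℕ} (hm : Admissible u v m) :
    f (A u v m) (B u v m) = corank m + 1 := by
  have h1 : descent (A u v m) (B u v m) = Run7.h843.L.Sel (-4 * r u v * m) (2 * s u v ^ 2 * m ^ 2) :=
    Run7.h268.FN.T17.selQ1 h.coprime (Int.odd_iff.1 h.parity) (adm_of hm)
  have h2 : Nat.card (Run7.h843.L.Sel (-4 * r u v * m) (2 * s u v ^ 2 * m ^ 2)) =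
      2 * Nat.card (Run7.h843.L.K1 m) :=
    Run7.h843.L.card_Sel1 h.coprime (Int.odd_iff.1 h.parity) (adm_of hm)
  have h3 := (Run7.h843.L.card_K1 m (corank m)).2 ((corank_iff m _).1 rfl)
  unfold f
  rw [h1, ← Nat.card_coe_set_eq, h2, h3, mul_comm, ← pow_succ]
  exact Nat.log_pow one_lt_two _

theorem f2_eq {u v : ℤ} (h : Pair u v) {m : ℕ} (hm : Admissible u v m) :
    f (-2 * A u v m) (A u v m ^ 2 - 4 * B u v m) = corank m + 1 := by
  have e1 : -2 * A u v m = 8 * r u v * m := by unfold A; ring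
  have e2 : A u v m ^ 2 - 4 * B u v m = 8 * t u v ^ 2 * m ^ 2 := by
    unfold A B r s t
    ring
  have h1 : descent (8 * r u v * m) (8 * t u v ^ 2 * m ^ 2) =
      Run7.h843.L.Sel (8 * r u v * m) (8 * t u v ^ 2 * m ^ 2) :=
    Run7.h268.FN.T17.selQ2 h.coprime (Int.odd_iff.1 h.parity) (adm_of hm)
  have h2 : Nat.card (Run7.h843.L.Sel (8 * r u v * m) (8 * t u v ^ 2 * m ^ 2)) =
      2 * Nat.card (Run7.h843.L.K2 m) :=
    Run7.h843.L.card_Sel2 h.coprime (Int.odd_iff.1 h.parity) (adm_of hm)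
  have h3 := (Run7.h843.L.card_K2 m (corank m)).2 ((corank_iff m _).1 rfl)
  unfold f
  rw [e1, e2, h1, ← Nat.card_coe_set_eq, h2, h3, mul_comm, ← pow_succ]
  exact Nat.log_pow one_lt_two _

theorem s_eq {u v : ℤ} (h : Pair u v) {m : ℕ} (hm : Admissible u v m) :
    selmerRank (A u v m) (B u v m) = 2 * corank m := by
  unfold selmerRank
  rw [f1_eq h hm, f2_eq h hm]
  push_cast
  ring

theorem rank_sha {u v : ℤ} (h : Pair u v) {m : ℕ} (hm : Admissible u v m) :
    Finite (ShaTwo (curve (A u v m) (B u v m))) ∧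
      2 ^ rank (curve (A u v m) (B u v m)) * Nat.card (ShaTwo (curve (A u v m) (B u v m))) ≤
        2 ^ (2 * corank m) := by
  obtain ⟨h1, h2⟩ := Run7.h843.L.rank_sha h.coprime (Int.odd_iff.1 h.parity) (adm_of hm)
    ((corank_iff m _).1 rfl) (isT h hm.squarefree.ne_zero)
  rw [rank_MP, pow_mul]
  exact ⟨h1, h2⟩

theorem rank_zero {u v : ℤ} (h : Pair u v) {m : ℕ} (hm : Admissible u v m) (h0 : corank m = 0) :
    rank (curve (A u v m) (B u v m)) = 0 := by
  obtain ⟨h1, h2⟩ := rank_sha h hm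
  rw [h0, mul_zero, pow_zero] at h2
  have h3 : 0 < Nat.card (ShaTwo (curve (A u v m) (B u v m))) := by
    have : Nonempty (ShaTwo (curve (A u v m) (B u v m))) := ⟨⟨0, smul_zero 2⟩⟩
    exact Nat.card_pos
  by_contra hr
  have h4 : 2 ≤ 2 ^ rank (curve (A u v m) (B u v m)) := by
    calc 2 = 2 ^ 1 := rfl
      _ ≤ _ := Nat.pow_le_pow_right (by norm_num) (by omega)
  have h5 := Nat.mul_le_mul h4 h3
  omega

theorem odd_of {q n : ℕ} {c p : Fin n → ℕ} (hq : 16 ∣ q) (hc : ∀ i, Odd (c i))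
    (h : ∀ i, p i % q = c i) (i : Fin n) : p i % 2 = 1 := by
  rw [← Nat.mod_mod_of_dvd (p i) ((by norm_num : 2 ∣ 16).trans hq), h i]
  exact Nat.odd_iff.1 (hc i)

theorem adm_family {I : Finset (ℤ × ℤ)} {q n : ℕ} {c : Fin n → ℕ}
    {S : Set ℕ} (hc : Classes I q c) {m : ℕ} (hm : Family S q c m) {z : ℤ × ℤ} (hz : z ∈ I) :
    Admissible z.1 z.2 m := by
  obtain ⟨p, hp, h, rfl⟩ := hm
  have hmod : (∏ i, c i) % q = (∏ i, p i) % q := by
    rw [Finset.prod_nat_mod, Finset.prod_nat_mod Finset.univ q p]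
    congr 1
    refine Finset.prod_congr rfl fun i _ => ?_
    rw [← (h i).2.2, Nat.mod_mod]
  have hprod : ∏ i, p i = ∏ x ∈ Finset.univ.image p, x := by
    rw [Finset.prod_image fun a _ b _ h => hp h]
  refine ⟨?_, ?_, ?_⟩
  · rw [hprod]
    refine Finset.squarefree_prod_of_pairwise_isCoprime (fun x hx y hy hxy => ?_) fun x hx => ?_
    · rw [Finset.mem_coe, Finset.mem_image] at hx hy
      obtain ⟨i, -, rfl⟩ := hx
      obtain ⟨j, -, rfl⟩ := hy
      exact Nat.coprime_iff_isRelPrime.1 ((Nat.coprime_primes (h i).1 (h j).1).2 hxy)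
    · rw [Finset.mem_image] at hx
      obtain ⟨i, -, rfl⟩ := hx
      exact (h i).1.squarefree
  · refine Finset.prod_induction _ Odd (fun _ _ => Odd.mul) odd_one fun i _ => ?_
    exact Nat.odd_iff.2 (odd_of hc.sixteen hc.odd (fun i => (h i).2.2) i)
  · have h1 : Run7.h843.N.PP {z} ∣ q := by
      unfold Run7.h843.N.PP
      rw [Finset.prod_singleton]
      exact Int.natAbs_dvd_natAbs.2 (hc.bad z hz)
    have h2 := Run7.h843.N.cond_mod (I := {z}) (Finset.mem_singleton_self z) h1 hmod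
      ⟨(hc.cond z hz).atS, (hc.cond z hz).atT⟩
    exact ⟨h2.1, h2.2⟩

theorem prod_pf {m : ℕ} (hm : Squarefree m) : ∏ x ∈ m.primeFactors, x = m :=
  Nat.prod_primeFactors_of_squarefree hm

theorem sqf_family {q n : ℕ} {c : Fin n → ℕ} {S : Set ℕ} {m : ℕ} (hm : Family S q c m) :
    Squarefree m := by
  obtain ⟨p, hp, h, rfl⟩ := hm
  have hprod : ∏ i, p i = ∏ x ∈ Finset.univ.image p, x := by
    rw [Finset.prod_image fun a _ b _ h => hp h]
  rw [hprod]
  refine Finset.squarefree_prod_of_pairwise_isCoprime (fun x hx y hy hxy => ?_) fun x hx => ?_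
  · rw [Finset.mem_coe, Finset.mem_image] at hx hy
    obtain ⟨i, -, rfl⟩ := hx
    obtain ⟨j, -, rfl⟩ := hy
    exact Nat.coprime_iff_isRelPrime.1 ((Nat.coprime_primes (h i).1 (h j).1).2 hxy)
  · rw [Finset.mem_image] at hx
    obtain ⟨i, -, rfl⟩ := hx
    exact (h i).1.squarefree

theorem count_congr {Q Q' : ℕ → Prop} (h : ∀ m, Q m ↔ Q' m) : count Q = count Q' := by
  rw [funext fun m => propext (h m)]

/-- the law of the corank -/
theorem law_corank {S : Set ℕ} {q n : ℕ} {c : Fin n → ℕ} (hq : 16 ∣ q) (hc : ∀ i, Odd (c i))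
    (hn : 1 ≤ n) (hD : Dense S q c) (k : ℕ) :
    (∃ (a C : ℝ) (X₀ : ℕ), 0 < a ∧ 0 < C ∧ ∀ X : ℕ, X₀ ≤ X →
      a * (X * Real.log (Real.log X) ^ (n - 1) / Real.log X) ≤ (count (Family S q c) X : ℝ) ∧
      (count (Family S q c) X : ℝ) ≤ C * (X * Real.log (Real.log X) ^ (n - 1) / Real.log X)) ∧
    Proportion (Family S q c) (fun m => corank m = k) (prop c k) := by
  have hD' : ∀ i, Dn fun p => p.Prime ∧ p ∈ S ∧ p % q = c i := by
    intro i
    obtain ⟨δ, Y₀, hδ, h⟩ := hD i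
    exact Run7.h268.FN.dn_of (Q := fun p => p.Prime ∧ p ∈ S ∧ p % q = c i) hδ h fun p hp => hp
  obtain ⟨W, hW⟩ : ∃ W : Finset ℕ → Prop, W = fun Q =>
    (MatR (∏ x ∈ Q, x)).rank + k = (SR (∏ x ∈ Q, x)).card := ⟨_, rfl⟩
  obtain ⟨Φ, hΦ⟩ : ∃ Φ : (Fin n → Fin n → ZMod 2) → Prop, Φ = fun R =>
    (mj (J c) (fun i => f16 (c i)) R).rank + k = (J c).card := ⟨_, rfl⟩
  have h1 := law_prd (S := S) (q := q) (c := c) (W := W) (Φ := Φ)
    ((by norm_num : 4 ∣ 16).trans hq) (fun i => Nat.odd_iff.1 (hc i)) hn hD' (by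
      intro p hp h
      rw [hW, hΦ]
      simp only
      rw [Finset.prod_image fun a _ b _ h => hp h]
      obtain ⟨h2, h3⟩ := Run7.h268.FN.T17.rank_MatR (c := c) hq hp fun i => ⟨(h i).1, (h i).2.2⟩
      rw [h2, h3]
      exact Iff.rfl)
  refine ⟨h1.1, ?_⟩
  have h2 : frc (fun α => Φ (ex (fun i => Run7.h268.FN.e4 (c i)) α)) = prop c k := by
    rw [hΦ]
    exact frc_mats (J c) (fun i => Run7.h268.FN.e4 (c i)) (fun i => f16 (c i))
      fun M => M.rank + k = (J c).card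
  have h3 := h1.2
  rw [h2] at h3
  unfold Proportion
  have h4 : count (fun m => Family S q c m ∧ corank m = k) =
      cnt (fun D => Prd S q c D ∧ W D.primeFactors) := by
    refine count_congr fun m => and_congr_right fun hm => ?_
    rw [hW, corank_iff]
    simp only
    rw [prod_pf (sqf_family hm)]
  rw [h4]
  exact h3

theorem prop_congr {F Q Q' : ℕ → Prop} {θ : ℝ} (h : ∀ m, F m → (Q m ↔ Q' m))
    (hp : Proportion F Q θ) : Proportion F Q' θ := by
  unfold Proportion at hp ⊢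
  rw [count_congr (Q := fun m => F m ∧ Q' m) (Q' := fun m => F m ∧ Q m) fun m =>
    and_congr_right fun hm => (h m hm).symm]
  exact hp

theorem closed {n : ℕ} {c : Fin n → ℕ} (h1 : ∃ i, c i % 8 = 3 ∨ c i % 8 = 5)
    (h2 : ∀ i j, i ≠ j → c i % 8 = 7 → c j % 8 ≠ 7) :
    prop c 0 = Pool.Agent.Y219.CQ.sp (J c).card := by
  have hJ : J c ≠ Finset.univ := by
    obtain ⟨i, hi⟩ := h1
    intro h
    have h3 := Finset.mem_univ i
    rw [← h] at h3
    have h4 := (Finset.mem_filter.1 h3).2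
    omega
  refine Eq.trans ?_ (mats_symm (J c) (fun i => Run7.h268.FN.e4 (c i)) (fun i => f16 (c i))
    Pool.Agent.Y839.CQ.t_SYM hJ ?_)
  · rfl
  · intro i hi j hj hij
    have h3 := (Finset.mem_filter.1 hi).2
    have h4 := (Finset.mem_filter.1 hj).2
    show Run7.h268.FN.e4 (c i) * Run7.h268.FN.e4 (c j) = 0
    unfold Run7.h268.FN.e4
    rcases h3 with h3 | h3
    · rw [if_pos (by omega : c i % 4 = 1), zero_mul]
    · rcases h4 with h4 | h4
      · rw [if_pos (by omega : c j % 4 = 1), mul_zero]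
      · exact absurd h4 (h2 i j hij h3)

/-- classes for every number of primes -/
theorem exists_classes {I : Finset (ℤ × ℤ)} (hP : ∀ z ∈ I, Pair z.1 z.2)
    (hco : ∀ z ∈ I, ∀ w ∈ I, z ≠ w → IsCoprime (s z.1 z.2 * t z.1 z.2) (s w.1 w.2 * t w.1 w.2))
    {n : ℕ} (hn : 1 ≤ n) : ∃ (q : ℕ) (c : Fin n → ℕ), 0 < q ∧ Classes I q c ∧
      ∀ i, (c i).Coprime q ∧ c i < q := by
  have hg : ∀ z ∈ I, Good z := fun z hz => good_of (hP z hz)
  obtain ⟨m, h1, h2⟩ := Run7.h843.N.exists_com hg hco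
  have hPP := Run7.h843.N.PP_pos hg
  obtain ⟨q, hq⟩ : ∃ q, q = 16 * Run7.h843.N.PP I := ⟨_, rfl⟩
  have hq0 : 0 < q := by omega
  have hq1 : 1 < q := by omega
  have hPq : Run7.h843.N.PP I ∣ q := ⟨16, by rw [hq, mul_comm]⟩
  have hmc : m.Coprime q := by
    refine Nat.Coprime.symm (Nat.Coprime.symm (Nat.coprime_of_dvd fun p hp hd hdq => ?_))
    rw [hq] at hdq
    rcases (Nat.Prime.dvd_mul hp).1 hdq with h | h
    · have h3 : p = 2 := (Nat.prime_dvd_prime_iff_eq hp Nat.prime_two).1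
        (hp.dvd_of_dvd_pow (show p ∣ 2 ^ 4 from h))
      rw [h3] at hd
      have := h2.odd
      omega
    · obtain ⟨z, hz, h4⟩ := Run7.h843.N.of_dvd_PP hp h
      exact (h2.cond z hz).nd hp h4 hd
  refine ⟨q, fun i => if i = ⟨0, hn⟩ then m % q else 1, hq0, ⟨⟨Run7.h843.N.PP I, hq⟩, ?_, ?_, ?_⟩, ?_⟩
  · intro i
    by_cases h : i = ⟨0, hn⟩
    · simp only [h, if_true]
      rw [Nat.odd_iff, Nat.mod_mod_of_dvd _ (⟨8 * Run7.h843.N.PP I, by rw [hq]; ring⟩ : 2 ∣ q)]
      exact h2.odd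
    · simp only [h, if_false]
      exact odd_one
  · intro z hz
    have h3 := Run7.h843.N.dvd_PP' hz
    exact h3.trans (Int.natCast_dvd_natCast.2 hPq)
  · intro z hz
    have h3 : (∏ i : Fin n, if i = ⟨0, hn⟩ then m % q else 1) = m % q := by
      rw [Finset.prod_ite_eq' Finset.univ (⟨0, hn⟩ : Fin n) fun _ => m % q,
        if_pos (Finset.mem_univ _)]
    rw [h3]
    have h4 := Run7.h843.N.cond_mod (n := m) (n' := m % q) hz hPq (Nat.mod_mod _ _).symm
      (h2.cond z hz)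
    exact ⟨h4.1, h4.2⟩
  · intro i
    by_cases h : i = ⟨0, hn⟩
    · simp only [h, if_true]
      refine ⟨?_, Nat.mod_lt _ hq0⟩
      show (m % q).gcd q = 1
      rw [← Nat.gcd_rec]
      exact hmc.symm
    · simp only [h, if_false]
      exact ⟨Nat.coprime_one_left q, hq1⟩

theorem one_lt {u v : ℤ} (h : Pair u v) : 1 < |s u v * t u v| := by
  have hg := good_of h
  by_contra hcon
  have h1 : |s u v * t u v| = 1 := by
    have h2 : 0 < |s u v * t u v| := abs_pos.2 (mul_ne_zero hg.s0 hg.t0)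
    omega
  rw [abs_mul] at h1
  have h2 : |s u v| = 1 := by
    have := Int.eq_one_or_neg_one_of_mul_eq_one h1
    rcases this with h | h
    · exact h
    · have := abs_nonneg (s u v)
      omega
  have h3 : |t u v| = 1 := by rw [h2, one_mul] at h1; exact h1
  apply h.ne
  have e : t u v - s u v = 4 * (u * v) := by unfold s t; ring
  rcases abs_eq (zero_le_one' ℤ) |>.1 h2 with h4 | h4 <;>
    rcases abs_eq (zero_le_one' ℤ) |>.1 h3 with h5 | h5 <;> omega

theorem dense_all {q n : ℕ} {c : Fin n → ℕ} (hq : 0 < q) (hc : ∀ i, (c i).Coprime q ∧ c i < q) :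
    Dense Set.univ q c := by
  intro i
  obtain ⟨δ, Y₀, hδ, h⟩ := Pool.Agent.V11291.FK.Cb.pai_low' q hq (c i) (hc i).1
  refine ⟨δ, Y₀, hδ, fun Y hY => (h Y hY).trans (le_of_eq ?_)⟩
  congr 1
  symm
  refine Nat.subtype_card _ fun p => ?_
  simp only [Finset.mem_filter, Finset.mem_range, Nat.lt_succ_iff, Nat.mod_eq_of_lt (hc i).2]
  exact ⟨fun h => ⟨h.1, h.2.1, trivial, h.2.2⟩, fun h => ⟨h.1, h.2.1, h.2.2.2⟩⟩

end proof

/-- **The exact law of the 2-Selmer rank, and `rank = s = 0` for an exact proportion.** -/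
theorem result :
    -- the two groups of the problem, the rank and Sha
    (∀ (u v : ℤ) (m : ℕ), Pair u v → Admissible u v m →
      A u v m ^ 2 - 4 * B u v m ≠ 0 ∧ B u v m ≠ 0 ∧
      f (A u v m) (B u v m) = corank m + 1 ∧
      f (-2 * A u v m) (A u v m ^ 2 - 4 * B u v m) = corank m + 1 ∧
      selmerRank (A u v m) (B u v m) = 2 * corank m ∧
      Finite (ShaTwo (curve (A u v m) (B u v m))) ∧
      2 ^ rank (curve (A u v m) (B u v m)) * Nat.card (ShaTwo (curve (A u v m) (B u v m))) ≤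
        2 ^ (2 * corank m)) ∧
    -- the law for products of primes from a dense set
    (∀ I : Finset (ℤ × ℤ), I.Nonempty → (∀ z ∈ I, Pair z.1 z.2) →
      ∀ (S : Set ℕ) (q n : ℕ) (c : Fin n → ℕ), 1 ≤ n → Classes I q c → Dense S q c →
      (∀ m, Family S q c m → ∀ z ∈ I, Admissible z.1 z.2 m) ∧
      (∃ (a C : ℝ) (X₀ : ℕ), 0 < a ∧ 0 < C ∧ ∀ X : ℕ, X₀ ≤ X →
        a * (X * Real.log (Real.log X) ^ (n - 1) / Real.log X) ≤ (count (Family S q c) X : ℝ) ∧
        (count (Family S q c) X : ℝ) ≤ C * (X * Real.log (Real.log X) ^ (n - 1) / Real.log X)) ∧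
      (∀ k : ℕ, Proportion (Family S q c) (fun m => ∀ z ∈ I,
        selmerRank (A z.1 z.2 m) (B z.1 z.2 m) = 2 * k) (prop c k)) ∧
      Proportion (Family S q c) (fun m => ∀ z ∈ I,
        (rank (curve (A z.1 z.2 m) (B z.1 z.2 m)) : ℤ) = selmerRank (A z.1 z.2 m) (B z.1 z.2 m) ∧
          selmerRank (A z.1 z.2 m) (B z.1 z.2 m) = 0) (prop c 0)) ∧
    -- the closed form
    (∀ (n : ℕ) (c : Fin n → ℕ), (∃ i, c i % 8 = 3 ∨ c i % 8 = 5) →
      (∀ i j, i ≠ j → c i % 8 = 7 → c j % 8 ≠ 7) →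
      prop c 0 = ∏ i ∈ Finset.range (((J c).card + 1) / 2), (1 - (1 / 2 : ℝ) ^ (2 * i + 1)) ∧
      0.4194 < prop c 0) ∧
    -- existence
    (∀ I : Finset (ℤ × ℤ), (∀ z ∈ I, Pair z.1 z.2) →
      (∀ z ∈ I, ∀ w ∈ I, z ≠ w → IsCoprime (s z.1 z.2 * t z.1 z.2) (s w.1 w.2 * t w.1 w.2)) →
      ∀ n : ℕ, 1 ≤ n → ∃ (q : ℕ) (c : Fin n → ℕ), Classes I q c ∧ Dense Set.univ q c) ∧
    -- the curves
    (∀ u v : ℤ, Pair u v → (∀ m : ℕ, m ≠ 0 → (curve (A u v m) (B u v m)).Δ ≠ 0 ∧
      (curve (A u v m) (B u v m)).c₄ ^ 3 / (curve (A u v m) (B u v m)).Δ =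
        ((64 * (8 * r u v ^ 2 - 3 * s u v ^ 2) ^ 3 : ℤ) : ℚ) / ((s u v ^ 4 * t u v ^ 2 : ℤ) : ℚ)) ∧
      IsCoprime (64 * (8 * r u v ^ 2 - 3 * s u v ^ 2) ^ 3) (s u v ^ 4 * t u v ^ 2) ∧
      1 < |s u v * t u v|) := by
  refine ⟨fun u v m h hm => ?_, fun I hI hP S q n c hn hc hD => ⟨fun m hm z hz =>
    adm_family hc hm hz, (law_corank hc.sixteen hc.odd hn hD 0).1, fun k => ?_, ?_⟩,
    fun n c h1 h2 => ?_, fun I hP hco n hn => ?_, fun u v h => ⟨fun m hm => ?_,
    Run7.h843.N.cop_j (good_of h), one_lt h⟩⟩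
  · have hg := good_of h
    have hs0 : s u v ≠ 0 := hg.s0
    have ht0 : t u v ≠ 0 := hg.t0
    have hm0 : (m : ℤ) ≠ 0 := by exact_mod_cast hm.squarefree.ne_zero
    refine ⟨?_, ?_, f1_eq h hm, f2_eq h hm, s_eq h hm, (rank_sha h hm).1, (rank_sha h hm).2⟩
    · have e2 : A u v m ^ 2 - 4 * B u v m = 8 * t u v ^ 2 * m ^ 2 := by
        unfold A B r s t
        ring
      rw [e2]
      exact mul_ne_zero (mul_ne_zero (by norm_num) (pow_ne_zero 2 ht0)) (pow_ne_zero 2 hm0)
    · exact mul_ne_zero (mul_ne_zero two_ne_zero (pow_ne_zero 2 hs0)) (pow_ne_zero 2 hm0)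
  · obtain ⟨z0, hz0⟩ := hI
    refine prop_congr (fun m hm => ?_) (law_corank hc.sixteen hc.odd hn hD k).2
    constructor
    · intro h z hz
      rw [s_eq (hP z hz) (adm_family hc hm hz), h]
    · intro h
      have h1 := h z0 hz0
      rw [s_eq (hP z0 hz0) (adm_family hc hm hz0)] at h1
      omega
  · obtain ⟨z0, hz0⟩ := hI
    refine prop_congr (fun m hm => ?_) (law_corank hc.sixteen hc.odd hn hD 0).2
    constructor
    · intro h z hz
      have h1 := s_eq (hP z hz) (adm_family hc hm hz)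
      rw [h1, rank_zero (hP z hz) (adm_family hc hm hz) h, h]
      simp
    · intro h
      have h1 := (h z0 hz0).2
      rw [s_eq (hP z0 hz0) (adm_family hc hm hz0)] at h1
      omega
  · rw [closed h1 h2]
    exact ⟨rfl, Run7.h268.FN.sp_gt _⟩
  · obtain ⟨q, c, hq, h1, h2⟩ := exists_classes hP hco hn
    exact ⟨q, c, h1, dense_all hq h2⟩
  · refine Run7.h843.N.j_eq (good_of h) hm ?_
    unfold curve A B
    push_cast
    rfl

end Pool.Agent.Results.MP_e2b281_nt.FixedNumberNonCMTwists
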