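
import Mathlib
import Pool.Agent.Run7.h289.D18.Fn
import Pool.Agent.Run7.h289.D18.Jw
import Pool.Agent.Run7.h289.MO.Av
import Pool.Agent.N916.GB.Num

/-!
# The 2-isogeny Selmer rank and the rank in the natural order, for all elliptic curves with full rational
# 2-torsion and a cyclic 4-isogeny

The notation of the problem: for `E : y² = x³ + a x² + b x` let `2 ^ f a b` be the number of the
squarefree `b₁` which divide `b` for which `N² = b₁ M⁴ + a M² e² + (b / b₁) e⁴` is solvable in `ℝ` and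
all `ℚ_p`, and `s = f a b + f (-2a) (a² - 4b) - 2`. The question is whether `rank E(ℚ)` and `s` have
the same parity.

The curves are those for which `b` and `a² - 4 b` are squares. A pair is `(u, v)`, coprime nonzero
integers with `u² ≠ v²`, and `E_{u,v}^D : y² = x (x + u² D) (x + v² D)`, that is
`a = (u² + v²) D`, `b = u² v² D²`, for a squarefree integer `D ≠ 0`. The theorems of the team on this
page up to now treat products of a FIXED number of primes; here all numbers of a class are counted, in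
the natural order, and almost all of them have many prime factors.

1. These are all the curves of the problem for which `b` and `a² - 4 b` are squares.
2. The squarefree integer `D` is admissible for `(u, v)` if `|D| = 3` modulo `4`, `D` is not a square
   modulo the odd primes of `u v`, `-D` is not a square modulo the odd primes of `u² - v²`, and a
   condition modulo `32` holds. Then `f a b = f a' b' = k + 1` for some `k ≥ 0` (the two groups are
   explicit and depend only on `D`), so `s = 2 k` is even, and `2^rank * #Ш[2] ≤ 2^s`; the curve has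
   finitely many rational points and `Ш[2^∞] = 0` if and only if `s = 0`.
3. The joint law in the natural order. Let `a 0, ..., a (M-1)` be different multipliers: squarefree,
   `1` modulo `4` and positive; let `F i` be a nonempty finite set of pairs with signs `t = (u, v, w)`
   such that `a i` is prime to the odd primes of `u v (u² - v²)`. The curves are `E_{u,v}^D` with
   `D = w * part (a i) m`, where `part a m` is the squarefree part of `a m`. Consider the squarefree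
   numbers `m > 0` for which all these `D` are admissible, also those in a class `b` modulo `N` prime
   to `N`, provided that there is one. They have positive lower density. For each of them `s` is the
   same for all curves of `F i`; the values for different multipliers are independent: for EVERY set
   `A` of vectors exactly the proportion `∑_{k ∈ A} ∏ i, g (k i)` of the `m` has `s = 2 k i` for all
   the curves of `F i`, for a vector `k` in `A`, where
   `g k = η / (2^(k²) ∏_{i ≤ k} (1 - 2^(-i))²)`, `η = ∏ (1 - 2^(-i)) = 0.2888...`, `∑ g k = 1`.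
4. For every set `S` of indices exactly the proportion `η^(#S) (1 - η)^(M - #S)` has `rank = s = 0` for
   the curves of `F i` for `i` in `S`, and not for the others; so the congruence `rank = s` modulo `2`
   holds for all the curves at once for at least the proportion `η^M`.
5. All the moments converge: for one curve `t i` of each `F i` and all exponents `e i` the average of
   the products of the `e i`-th powers of the orders of the first groups (and of the second groups)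
   tends to `∏ i, 2^(e i) G (e i)`, where `G r` is the number of the subspaces of `F_2^r` (Galois
   numbers), and the upper limit of the average of `∏ i, (2^rank * #Ш[2])^(e i)` is at most
   `∏ i, G (2 e i)`: for one curve the average of `2^rank * #Ш[2]` is at most `5` in the limit.
6. Existence: each pair with the sign `+` (`u v` odd) or `-` (`u v` even) has admissible numbers.
   Multipliers: if `a` is squarefree, `1` modulo `8` and a nonzero square modulo the odd primes of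
   `u v (u² - v²)`, then `w * part a m` is admissible if and only if `w * m` is.
-/

set_option autoImplicit false

open Filter Topology

namespace Pool.Agent.Results.MP_e2b281_nt.NaturalOrderJointLaw

/-- the curve `y² = x³ + a x² + b x` over `ℚ` -/
def curve (a b : ℤ) : WeierstrassCurve ℚ :=
  { a₁ := 0, a₂ := (a : ℚ), a₃ := 0, a₄ := (b : ℚ), a₆ := 0 }

/-- the squarefree `b₁` which divide `b` for which the quartic is solvable in `ℝ` and all `ℚ_p` -/
def descent (a b : ℤ) : Set ℤ := {b₁ | Squarefree b₁ ∧ b₁ ∣ b ∧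
  (∃ N M e : ℝ, (M ≠ 0 ∨ e ≠ 0) ∧
    N ^ 2 = (b₁ : ℝ) * M ^ 4 + (a : ℝ) * M ^ 2 * e ^ 2 + ((b / b₁ : ℤ) : ℝ) * e ^ 4) ∧
  ∀ (p : ℕ) [Fact p.Prime], ∃ N M e : ℚ_[p], (M ≠ 0 ∨ e ≠ 0) ∧
    N ^ 2 = (b₁ : ℚ_[p]) * M ^ 4 + (a : ℚ_[p]) * M ^ 2 * e ^ 2 + ((b / b₁ : ℤ) : ℚ_[p]) * e ^ 4}

/-- the exponent of the order of the group of these `b₁` -/
noncomputable def f (a b : ℤ) : ℕ := Nat.log 2 (descent a b).ncard

/-- the 2-Selmer rank `s = f₁ + f₂ - 2` of the problem -/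
noncomputable def selmerRank (a b : ℤ) : ℤ := f a b + f (-2 * a) (a ^ 2 - 4 * b) - 2

/-- the rank of the curve -/
noncomputable def rank (a b : ℤ) : ℕ := Module.finrank ℤ (curve a b).toAffine.Point

/-- the pairs `(u, v)` -/
structure Pair (u v : ℤ) : Prop where
  coprime : IsCoprime u v
  left : u ≠ 0
  right : v ≠ 0
  ne : u ^ 2 ≠ v ^ 2

/-- `D` is admissible for `(u, v)` -/
structure Admissible (u v D : ℤ) : Prop where
  squarefree : Squarefree D
  three : D.natAbs % 4 = 3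
  atUV : ∀ p : ℕ, p.Prime → p ≠ 2 → (p : ℤ) ∣ u * v → ¬ IsSquare (D : ZMod p)
  atDiff : ∀ p : ℕ, p.Prime → p ≠ 2 → (p : ℤ) ∣ u ^ 2 - v ^ 2 → ¬ IsSquare (-(D : ZMod p))
  atTwoPos : 0 < D →
    (u * v % 2 = 1 ∧ (D % 8 = 3 ∨ (u ^ 2 - v ^ 2) % 32 = 16)) ∨ u * v % 4 = 2
  atTwoNeg : D < 0 → (u * v % 2 = 1 ∧ (u ^ 2 - v ^ 2) % 16 = 8) ∨
    (u * v % 2 = 0 ∧ (D.natAbs % 8 = 3 ∨ u * v % 8 = 4))

/-- `W(ℚ)` is finite and `Ш(W/ℚ)[2^∞] = 0` -/
structure Trivial (W : WeierstrassCurve ℚ) : Prop where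
  finite : Finite W.toAffine.Point
  sha : ∀ (n : ℕ) (x : Pool.Agent.TH841.NF.D.Sha W), 2 ^ n • x = 0 → x = 0

/-- `Ш(W/ℚ)[2]` -/
abbrev ShaTwo (W : WeierstrassCurve ℚ) : Type := {x : Pool.Agent.TH841.NF.D.Sha W // 2 • x = 0}

/-- the coefficient `a` of `E_{u,v}^D` -/
def ca (u v D : ℤ) : ℤ := (u ^ 2 + v ^ 2) * D

/-- the coefficient `b` of `E_{u,v}^D` -/
def cb (u v D : ℤ) : ℤ := u ^ 2 * v ^ 2 * D ^ 2

/-- the triples `t = (u, v, w)`: a pair `(u, v)` and a sign `w = ± 1` -/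
structure Signed (t : ℤ × ℤ × ℤ) : Prop where
  pair : Pair t.1 t.2.1
  sign : t.2.2 = 1 ∨ t.2.2 = -1

/-- the squarefree part of `a m`, for squarefree `a`, `m` -/
def part (a m : ℕ) : ℕ := a * m / Nat.gcd a m ^ 2

/-- the coefficient `a` of the curve of `t` for the multiplier `c` and the number `m` -/
def ta (t : ℤ × ℤ × ℤ) (c m : ℕ) : ℤ := ca t.1 t.2.1 (t.2.2 * part c m)

/-- the coefficient `b` of the curve of `t` for the multiplier `c` and the number `m` -/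
def tb (t : ℤ × ℤ × ℤ) (c m : ℕ) : ℤ := cb t.1 t.2.1 (t.2.2 * part c m)

/-- the multipliers and the sets of pairs with signs -/
structure Data {M : ℕ} (a : Fin M → ℕ) (F : Fin M → Finset (ℤ × ℤ × ℤ)) : Prop where
  pos : 0 < M
  different : Function.Injective a
  squarefree : ∀ i, Squarefree (a i)
  one : ∀ i, a i % 4 = 1
  nonempty : ∀ i, (F i).Nonempty
  signed : ∀ i, ∀ t ∈ F i, Signed t
  prime : ∀ i, ∀ t ∈ F i, ∀ p : ℕ, p.Prime → p ≠ 2 →
    (p : ℤ) ∣ t.1 * t.2.1 * (t.1 ^ 2 - t.2.1 ^ 2) → ¬ p ∣ a i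

/-- all the numbers are admissible -/
def Common {M : ℕ} (a : Fin M → ℕ) (F : Fin M → Finset (ℤ × ℤ × ℤ)) (m : ℕ) : Prop :=
  Squarefree m ∧ ∀ i, ∀ t ∈ F i, Admissible t.1 t.2.1 (t.2.2 * part (a i) m)

/-- `s = 2 k i` for all the curves of `F i` -/
def Values {M : ℕ} (a : Fin M → ℕ) (F : Fin M → Finset (ℤ × ℤ × ℤ)) (k : Fin M → ℕ) (m : ℕ) :
    Prop := ∀ i, ∀ t ∈ F i, selmerRank (ta t (a i) m) (tb t (a i) m) = 2 * (k i : ℤ)

/-- the number of the `m ≤ X` of the class `K` with the property `Q` -/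
noncomputable def num (K Q : ℕ → Prop) (X : ℕ) : ℕ := Nat.card {m : ℕ // m ≤ X ∧ K m ∧ Q m}

/-- among the numbers of the class `K` exactly the proportion `θ` has the property `Q` -/
def Proportion (K Q : ℕ → Prop) (θ : ℝ) : Prop :=
  Tendsto (fun X : ℕ => (num K Q X : ℝ) / (num K (fun _ => True) X : ℝ)) atTop (𝓝 θ)

open scoped Classical in
/-- the average of `f` over the numbers `m ≤ X` of the class `K` -/
noncomputable def average (K : ℕ → Prop) (f : ℕ → ℝ) (X : ℕ) : ℝ :=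
  (∑ m ∈ (Finset.range (X + 1)).filter K, f m) / (((Finset.range (X + 1)).filter K).card : ℝ)

/-- the Galois numbers: the number of the subspaces of `F_2^r` -/
def G : ℕ → ℕ
  | 0 => 1
  | 1 => 2
  | (r + 2) => 2 * G (r + 1) + (2 ^ (r + 1) - 1) * G r

/-- the constant `0.2888...` -/
noncomputable def η : ℝ := ∏' i : ℕ, (1 - (1 / 2 : ℝ) ^ (i + 1))

/-- the constants of the law -/
noncomputable def g (k : ℕ) : ℝ :=
  η / (2 ^ (k ^ 2) * (∏ i ∈ Finset.range k, (1 - (1 / 2 : ℝ) ^ (i + 1))) ^ 2)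

section proof

open Pool.Agent.Run7.h289.D18

theorem pair_iff {u v : ℤ} : Pair u v ↔ Pr u v :=
  ⟨fun h => ⟨h.1, h.2, h.3, h.4⟩, fun h => ⟨h.1, h.2, h.3, h.4⟩⟩

theorem adm_iff {u v D : ℤ} : Admissible u v D ↔ Ad u v D :=
  ⟨fun h => ⟨h.1, h.2, h.3, h.4, h.5, h.6⟩, fun h => ⟨h.1, h.2, h.3, h.4, h.5, h.6⟩⟩

theorem curve_eq (u v D : ℤ) : curve (ca u v D) (cb u v D) = Ec u v D := by
  unfold curve ca cb Ec
  push_cast
  rfl

theorem trivial_iff (W : WeierstrassCurve ℚ) : Trivial W ↔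
    (Finite W.toAffine.Point ∧ ∀ (k : ℕ) (x : Pool.Agent.TH841.NF.D.Sha W), 2 ^ k • x = 0 → x = 0) :=
  ⟨fun h => ⟨h.1, h.2⟩, fun h => ⟨h.1, h.2⟩⟩

theorem signed_iff {t : ℤ × ℤ × ℤ} : Signed t ↔ Tri t :=
  ⟨fun h => ⟨pair_iff.1 h.1, h.2⟩, fun h => ⟨pair_iff.2 h.1, h.2⟩⟩

theorem part_eq (a m : ℕ) : part a m = Pool.Agent.Run7.h238.J.tw a m := rfl

theorem descent_eq {a b : ℤ} (h : ∀ d ∈ Sel a b, d ∣ b) : descent a b = Sel a b := by
  ext d
  have e : ∀ (L : Type) [Field L] [CharZero L], d ∣ b → d ≠ 0 →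
      ((b / d : ℤ) : L) = (b : L) / (d : L) := fun L _ _ h2 hd =>
    Int.cast_div h2 (Int.cast_ne_zero.2 hd)
  constructor
  · rintro ⟨h1, h2, ⟨N, M, e', h5, h6⟩, h4⟩
    refine ⟨h1, fun p hp => ?_, N, M, e', h5, by rw [h6, e ℝ h2 h1.ne_zero]⟩
    obtain ⟨N, M, e', h5, h6⟩ := h4 p
    exact ⟨N, M, e', h5, by rw [h6, e ℚ_[p] h2 h1.ne_zero]⟩
  · intro hd
    have h2 := h d hd
    obtain ⟨h1, h4, N, M, e', h5, h6⟩ := hd
    refine ⟨h1, h2, ⟨N, M, e', h5, by rw [h6, e ℝ h2 h1.ne_zero]⟩, fun p hp => ?_⟩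
    obtain ⟨N, M, e', h5, h6⟩ := h4 p
    exact ⟨N, M, e', h5, by rw [h6, e ℚ_[p] h2 h1.ne_zero]⟩

theorem dvd_T1 {m : ℕ} {d : ℤ} (h : d ∈ T1 m) : d ∣ (m : ℤ) := by
  obtain ⟨-, e, h1, -⟩ := h
  exact ⟨-e, by rw [mul_neg, h1, neg_neg]⟩

theorem dvd_T2 {m : ℕ} {d : ℤ} (h : d ∈ T2 m) : d ∣ (m : ℤ) := by
  obtain ⟨-, e, h1, -⟩ := h
  exact ⟨e, h1.symm⟩

theorem sel_dvd {u v D : ℤ} (h : Pair u v) (hD : Admissible u v D) :
    (∀ d ∈ Sel (ca u v D) (cb u v D), d ∣ D) ∧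
      ∀ d ∈ Sel (-2 * ca u v D) (ca u v D ^ 2 - 4 * cb u v D), d ∣ D := by
  obtain ⟨s1, s2⟩ := Pool.Agent.Run7.h289.D18.selmer (pair_iff.1 h) (adm_iff.1 hD)
  have key : ∀ d : ℤ, d ∣ (D.natAbs : ℤ) → d ∣ D := fun d hd => by
    rwa [Int.dvd_natAbs] at hd
  rcases lt_trichotomy D 0 with h1 | h1 | h1
  · obtain ⟨e1, e2⟩ := s2 h1
    refine ⟨fun d hd => key d (dvd_T2 ?_), fun d hd => key d (dvd_T1 ?_)⟩
    · rw [← e1]
      exact hd
    · rw [← e2]
      exact hd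
  · exact absurd h1 hD.squarefree.ne_zero
  · obtain ⟨e1, e2⟩ := s1 h1
    refine ⟨fun d hd => key d (dvd_T1 ?_), fun d hd => key d (dvd_T2 ?_)⟩
    · rw [← e1]
      exact hd
    · rw [← e2]
      exact hd

theorem descent₁ {u v D : ℤ} (h : Pair u v) (hD : Admissible u v D) :
    descent (ca u v D) (cb u v D) = Sel (ca u v D) (cb u v D) :=
  descent_eq fun d hd => ((sel_dvd h hD).1 d hd).trans ⟨u ^ 2 * v ^ 2 * D, by unfold cb; ring⟩

theorem descent₂ {u v D : ℤ} (h : Pair u v) (hD : Admissible u v D) :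
    descent (-2 * ca u v D) (ca u v D ^ 2 - 4 * cb u v D) =
      Sel (-2 * ca u v D) (ca u v D ^ 2 - 4 * cb u v D) :=
  descent_eq fun d hd =>
    ((sel_dvd h hD).2 d hd).trans ⟨(u ^ 2 - v ^ 2) ^ 2 * D, by unfold ca cb; ring⟩

theorem core {u v D : ℤ} (h : Pair u v) (hD : Admissible u v D) : ∃ k : ℕ,
    Nf D.natAbs = 2 ^ (k + 1) ∧ (descent (ca u v D) (cb u v D)).ncard = 2 ^ (k + 1) ∧
    (descent (-2 * ca u v D) (ca u v D ^ 2 - 4 * cb u v D)).ncard = 2 ^ (k + 1) ∧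
    Finite (ShaTwo (curve (ca u v D) (cb u v D))) ∧
    2 ^ rank (ca u v D) (cb u v D) * Nat.card (ShaTwo (curve (ca u v D) (cb u v D))) ≤ 4 ^ k ∧
    (Trivial (curve (ca u v D) (cb u v D)) ↔ k = 0) := by
  unfold rank
  rw [descent₁ h hD, descent₂ h hD, curve_eq, trivial_iff]
  exact corank (pair_iff.1 h) (adm_iff.1 hD)

theorem f_of {a b : ℤ} {k : ℕ} (h : (descent a b).ncard = 2 ^ (k + 1)) : f a b = k + 1 := by
  unfold f
  rw [h, Nat.log_pow (by norm_num)]

theorem core' {u v D : ℤ} (h : Pair u v) (hD : Admissible u v D) : ∃ k : ℕ,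
    Nf D.natAbs = 2 ^ (k + 1) ∧ f (ca u v D) (cb u v D) = k + 1 ∧
    f (-2 * ca u v D) (ca u v D ^ 2 - 4 * cb u v D) = k + 1 ∧
    selmerRank (ca u v D) (cb u v D) = 2 * (k : ℤ) ∧
    Finite (ShaTwo (curve (ca u v D) (cb u v D))) ∧
    2 ^ rank (ca u v D) (cb u v D) * Nat.card (ShaTwo (curve (ca u v D) (cb u v D))) ≤ 4 ^ k ∧
    (Trivial (curve (ca u v D) (cb u v D)) ↔ k = 0) ∧
    (rank (ca u v D) (cb u v D) = 0 ∧ selmerRank (ca u v D) (cb u v D) = 0 ↔ k = 0) := by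
  obtain ⟨k, h0, h1, h2, h3, h4, h5⟩ := core h hD
  have e1 := f_of h1
  have e2 := f_of h2
  have e3 : selmerRank (ca u v D) (cb u v D) = 2 * (k : ℤ) := by
    unfold selmerRank
    rw [e1, e2]
    push_cast
    ring
  refine ⟨k, h0, e1, e2, e3, h3, h4, h5, ?_⟩
  rw [e3]
  constructor
  · rintro ⟨-, h6⟩
    omega
  · rintro rfl
    refine ⟨?_, by norm_num⟩
    have h6 : 0 < Nat.card (ShaTwo (curve (ca u v D) (cb u v D))) :=
      Nat.card_pos_iff.2 ⟨⟨⟨0, smul_zero _⟩⟩, h3⟩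
    by_contra h7
    have h8 : 2 ≤ 2 ^ rank (ca u v D) (cb u v D) := by
      calc 2 = 2 ^ 1 := (pow_one 2).symm
        _ ≤ _ := Nat.pow_le_pow_right (by norm_num) (Nat.one_le_iff_ne_zero.2 h7)
    rw [pow_zero] at h4
    nlinarith

theorem natAbs_sign {t : ℤ × ℤ × ℤ} (h : Signed t) (m : ℕ) : (t.2.2 * (m : ℤ)).natAbs = m := by
  rcases h.sign with e | e
  · rw [e, one_mul, Int.natAbs_natCast]
  · rw [e, neg_one_mul, Int.natAbs_neg, Int.natAbs_natCast]

theorem g_eq (k : ℕ) : g k = Run7.h843.L.gk k := by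
  rw [Run7.h843.L.gk_eq]
  rfl

section

variable {M : ℕ} {a : Fin M → ℕ} {F : Fin M → Finset (ℤ × ℤ × ℤ)} {N b : ℕ}

theorem common_iff {m : ℕ} : Common a F m ↔ CmJ a F m :=
  and_congr_right fun _ => forall_congr' fun _ => forall_congr' fun _ => forall_congr' fun _ =>
    adm_iff

theorem Data.hyp (h : Data a F) : Hyp a F where
  inj := h.different
  sqf := h.squarefree
  one := h.one
  tri := fun i t ht => signed_iff.1 (h.signed i t ht)
  ne := h.nonempty
  gm := h.prime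
  pos := h.pos

/-- the corank of the curves of `F i` -/
theorem values_qq (h : Data a F) {m : ℕ} (hm : Common a F m) (i : Fin M) (t : ℤ × ℤ × ℤ)
    (ht : t ∈ F i) :
    (descent (ta t (a i) m) (tb t (a i) m)).ncard = 2 ^ (Pool.Agent.Run7.h289.MO.qq a m i + 1) ∧
    (descent (-2 * ta t (a i) m) (ta t (a i) m ^ 2 - 4 * tb t (a i) m)).ncard =
      2 ^ (Pool.Agent.Run7.h289.MO.qq a m i + 1) ∧
    selmerRank (ta t (a i) m) (tb t (a i) m) = 2 * (Pool.Agent.Run7.h289.MO.qq a m i : ℤ) ∧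
    2 ^ rank (ta t (a i) m) (tb t (a i) m) *
      Nat.card (ShaTwo (curve (ta t (a i) m) (tb t (a i) m))) ≤
        4 ^ Pool.Agent.Run7.h289.MO.qq a m i ∧
    ((rank (ta t (a i) m) (tb t (a i) m) = 0 ∧ selmerRank (ta t (a i) m) (tb t (a i) m) = 0) ↔
      Pool.Agent.Run7.h289.MO.qq a m i = 0) := by
  have hs := h.signed i t ht
  obtain ⟨k, h1, h2, h3, -, -, -⟩ := core hs.pair (hm.2 i t ht)
  obtain ⟨k', h1', -, -, h4, -, h5, -, h6⟩ := core' hs.pair (hm.2 i t ht)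
  rw [natAbs_sign hs] at h1 h1'
  have k3 := Pool.Agent.Run7.h289.MO.qq_spec h.hyp (common_iff.1 hm) i
  have e1 : k = Pool.Agent.Run7.h289.MO.qq a m i := by
    have h8 := Nat.pow_right_injective le_rfl (h1.symm.trans k3)
    omega
  have e2 : k' = Pool.Agent.Run7.h289.MO.qq a m i := by
    have h8 := Nat.pow_right_injective le_rfl (h1'.symm.trans k3)
    omega
  subst e1
  rw [e2] at h4 h5 h6
  exact ⟨h2, h3, h4, h5, h6⟩

theorem values_iff (h : Data a F) {m : ℕ} (hm : Common a F m) (k : Fin M → ℕ) :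
    Values a F k m ↔ ∀ i, Nf (Pool.Agent.Run7.h238.J.tw (a i) m) = 2 ^ (k i + 1) := by
  have key : ∀ i, Nf (Pool.Agent.Run7.h238.J.tw (a i) m) = 2 ^ (k i + 1) ↔
      Pool.Agent.Run7.h289.MO.qq a m i = k i := by
    intro i
    rw [Pool.Agent.Run7.h289.MO.qq_spec h.hyp (common_iff.1 hm) i]
    constructor
    · intro h7
      have h8 := Nat.pow_right_injective le_rfl h7
      omega
    · intro h7
      rw [h7]
  constructor
  · intro h1 i
    obtain ⟨t, ht⟩ := h.nonempty i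
    rw [key]
    have h2 := h1 i t ht
    rw [(values_qq h hm i t ht).2.2.1] at h2
    omega
  · intro h1 i t ht
    rw [(values_qq h hm i t ht).2.2.1, (key i).1 (h1 i)]

theorem exists_values (h : Data a F) {m : ℕ} (hm : Common a F m) :
    ∃ k : Fin M → ℕ, Values a F k m :=
  ⟨Pool.Agent.Run7.h289.MO.qq a m, fun i t ht => (values_qq h hm i t ht).2.2.1⟩

theorem law (h : Data a F) (hN : 0 < N) (hbc : b.Coprime N)
    (hex : ∃ m, Common a F m ∧ m % N = b) (A : Set (Fin M → ℕ)) :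
    Proportion (fun m => Common a F m ∧ m % N = b) (fun m => ∃ k ∈ A, Values a F k m)
      (∑' k : A, ∏ i, g (k.1 i)) := by
  have h1 := law_set h.hyp hN hbc (hex.imp fun m hm => ⟨common_iff.1 hm.1, hm.2⟩) A
  have e : (∑' k : A, ∏ i, g (k.1 i)) = ∑' k : A, ∏ i, Run7.h843.L.gk (k.1 i) :=
    tsum_congr fun k => Finset.prod_congr rfl fun i _ => g_eq _
  rw [e]
  refine Prp.congr (fun m => and_congr_left fun _ => common_iff.symm) (fun m hm => ?_) h1
  exact exists_congr fun k => and_congr_right fun _ =>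
    (values_iff h (common_iff.2 hm.1) k).symm

theorem patterns (h : Data a F) (hN : 0 < N) (hbc : b.Coprime N)
    (hex : ∃ m, Common a F m ∧ m % N = b) (S : Finset (Fin M)) :
    Proportion (fun m => Common a F m ∧ m % N = b)
      (fun m => ∀ i, ∀ t ∈ F i, (rank (ta t (a i) m) (tb t (a i) m) = 0 ∧
        selmerRank (ta t (a i) m) (tb t (a i) m) = 0 ↔ i ∈ S))
      (η ^ S.card * (1 - η) ^ (M - S.card)) := by
  have e : η = Run7.h843.L.gk 0 := by
    rw [← g_eq]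
    unfold g
    simp
  have h1 := law_set h.hyp hN hbc (hex.imp fun m hm => ⟨common_iff.1 hm.1, hm.2⟩)
    {r : Fin M → ℕ | ∀ i, r i = 0 ↔ i ∈ S}
  rw [tsum_pat, ← e] at h1
  refine Prp.congr (fun m => and_congr_left fun _ => common_iff.symm) (fun m hm => ?_) h1
  have hC : Common a F m := common_iff.2 hm.1
  constructor
  · rintro ⟨r, hr, hr'⟩ i t ht
    have h2 := (values_iff h hC r).2 hr' i t ht
    rw [(values_qq h hC i t ht).2.2.1] at h2
    rw [(values_qq h hC i t ht).2.2.2.2, ← hr i]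
    omega
  · intro h2
    refine ⟨Pool.Agent.Run7.h289.MO.qq a m, fun i => ?_,
      (values_iff h hC _).1 fun i t ht => (values_qq h hC i t ht).2.2.1⟩
    obtain ⟨t, ht⟩ := h.nonempty i
    rw [← (values_qq h hC i t ht).2.2.2.2]
    exact h2 i t ht

theorem low (h : Data a F) (hN : 0 < N) (hbc : b.Coprime N)
    (hex : ∃ m, Common a F m ∧ m % N = b) :
    ∃ α : ℝ, 0 < α ∧ ∀ᶠ X : ℕ in atTop,
      α * X ≤ (num (fun m => Common a F m ∧ m % N = b) (fun _ => True) X : ℝ) := by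
  obtain ⟨α, hα, h1⟩ := lowJ h.hyp hN hbc (hex.imp fun m hm => ⟨common_iff.1 hm.1, hm.2⟩)
  refine ⟨α, hα, h1.mono fun X hX => ?_⟩
  have e : num (fun m => Common a F m ∧ m % N = b) (fun _ => True) X =
      nm (fun m => CmJ a F m ∧ m % N = b) (fun _ => True) X :=
    nm_congr (fun m => and_congr_left fun _ => common_iff) (fun _ _ => Iff.rfl) X
  rwa [e]

theorem G_eq : ∀ r : ℕ, G r = Pool.Agent.Run7.h289.MO.Ga r
  | 0 => rfl
  | 1 => rfl
  | (r + 2) => by
    show 2 * G (r + 1) + (2 ^ (r + 1) - 1) * G r = _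
    rw [G_eq (r + 1), G_eq r]
    rfl

theorem average_of (K : ℕ → Prop) (f : ℕ → ℝ) (X : ℕ) (s : Finset ℕ)
    (hs : ∀ m, m ∈ s ↔ m ≤ X ∧ K m) : average K f X = (∑ n ∈ s, f n) / (s.card : ℝ) := by
  classical
  unfold average
  have e : (Finset.range (X + 1)).filter K = s := by
    ext m
    rw [hs, Finset.mem_filter, Finset.mem_range, Nat.lt_succ_iff]
  rw [← e]

theorem average_eq (f : ℕ → ℝ) (X : ℕ) :
    average (fun m => Common a F m ∧ m % N = b) f X =
      (∑ n ∈ Pool.Agent.Run7.h289.MO.AX a F N b X, f n) /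
        ((Pool.Agent.Run7.h289.MO.AX a F N b X).card : ℝ) := by
  refine average_of _ f X _ fun m => ?_
  rw [Pool.Agent.Run7.h289.MO.mem_AX, common_iff]

theorem moments (h : Data a F) (hN : 0 < N) (hbc : b.Coprime N)
    (hex : ∃ m, Common a F m ∧ m % N = b) (e : Fin M → ℕ) (t : Fin M → ℤ × ℤ × ℤ)
    (ht : ∀ i, t i ∈ F i) :
    Tendsto (average (fun m => Common a F m ∧ m % N = b) fun m =>
      ∏ i, ((descent (ta (t i) (a i) m) (tb (t i) (a i) m)).ncard : ℝ) ^ e i) atTop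
      (𝓝 (∏ i, (2 : ℝ) ^ e i * G (e i))) ∧
    Tendsto (average (fun m => Common a F m ∧ m % N = b) fun m =>
      ∏ i, ((descent (-2 * ta (t i) (a i) m)
        (ta (t i) (a i) m ^ 2 - 4 * tb (t i) (a i) m)).ncard : ℝ) ^ e i) atTop
      (𝓝 (∏ i, (2 : ℝ) ^ e i * G (e i))) := by
  have h1 := (Pool.Agent.Run7.h289.MO.avg h.hyp hN hbc
    (hex.imp fun m hm => ⟨common_iff.1 hm.1, hm.2⟩) e).const_mul (∏ i, (2 : ℝ) ^ e i)
  have e1 : (∏ i, (2 : ℝ) ^ e i) * ∏ i, (Pool.Agent.Run7.h289.MO.Ga (e i) : ℝ) =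
      ∏ i, (2 : ℝ) ^ e i * G (e i) := by
    rw [← Finset.prod_mul_distrib]
    exact Finset.prod_congr rfl fun i _ => by rw [G_eq]
  rw [e1] at h1
  have key : ∀ S : ℕ → Fin M → ℕ, (∀ m, Common a F m → ∀ i,
      S m i = 2 ^ (Pool.Agent.Run7.h289.MO.qq a m i + 1)) →
      Tendsto (average (fun m => Common a F m ∧ m % N = b) fun m =>
        ∏ i, (S m i : ℝ) ^ e i) atTop
        (𝓝 (∏ i, (2 : ℝ) ^ e i * G (e i))) := by
    intro S hS
    refine h1.congr fun X => ?_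
    rw [average_eq, ← mul_div_assoc, Finset.mul_sum]
    congr 1
    refine Finset.sum_congr rfl fun m hm => ?_
    have hc := (Pool.Agent.Run7.h289.MO.mem_AX.1 hm).2.1
    rw [← Finset.prod_mul_distrib]
    refine Finset.prod_congr rfl fun i _ => ?_
    rw [hS m (common_iff.2 hc) i]
    push_cast
    rw [← pow_mul, ← pow_add]
    congr 1
    ring
  exact ⟨key (fun m i => (descent (ta (t i) (a i) m) (tb (t i) (a i) m)).ncard)
      fun m hm i => (values_qq h hm i (t i) (ht i)).1,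
    key (fun m i => (descent (-2 * ta (t i) (a i) m)
      (ta (t i) (a i) m ^ 2 - 4 * tb (t i) (a i) m)).ncard)
      fun m hm i => (values_qq h hm i (t i) (ht i)).2.1⟩

theorem sha_avg (h : Data a F) (hN : 0 < N) (hbc : b.Coprime N)
    (hex : ∃ m, Common a F m ∧ m % N = b) (e : Fin M → ℕ) (t : Fin M → ℤ × ℤ × ℤ)
    (ht : ∀ i, t i ∈ F i) (ε : ℝ) (hε : 0 < ε) :
    ∀ᶠ X : ℕ in atTop, average (fun m => Common a F m ∧ m % N = b) (fun m =>
      ∏ i, ((2 ^ rank (ta (t i) (a i) m) (tb (t i) (a i) m) *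
        Nat.card (ShaTwo (curve (ta (t i) (a i) m) (tb (t i) (a i) m))) : ℕ) : ℝ) ^ e i) X ≤
      ∏ i, (G (2 * e i) : ℝ) + ε := by
  have h1 := Pool.Agent.Run7.h289.MO.avg h.hyp hN hbc
    (hex.imp fun m hm => ⟨common_iff.1 hm.1, hm.2⟩) (fun i => 2 * e i)
  have h2 := (tendsto_order.1 h1).2 (∏ i, (G (2 * e i) : ℝ) + ε) (by
    have e1 : ∏ i, (Pool.Agent.Run7.h289.MO.Ga (2 * e i) : ℝ) = ∏ i, (G (2 * e i) : ℝ) :=
      Finset.prod_congr rfl fun i _ => by rw [G_eq]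
    rw [e1]
    linarith)
  refine h2.mono fun X hX => le_trans ?_ hX.le
  rw [average_eq]
  refine div_le_div_of_nonneg_right (Finset.sum_le_sum fun m hm => ?_) (Nat.cast_nonneg _)
  have hc := common_iff.2 (Pool.Agent.Run7.h289.MO.mem_AX.1 hm).2.1
  refine Finset.prod_le_prod (fun i _ => by positivity) fun i _ => ?_
  have k2 := (values_qq h hc i (t i) (ht i)).2.2.2.1
  have k5 : ((2 ^ rank (ta (t i) (a i) m) (tb (t i) (a i) m) *
      Nat.card (ShaTwo (curve (ta (t i) (a i) m) (tb (t i) (a i) m))) : ℕ) : ℝ) ≤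
      4 ^ Pool.Agent.Run7.h289.MO.qq a m i := by
    exact_mod_cast k2
  refine (pow_le_pow_left₀ (Nat.cast_nonneg _) k5 (e i)).trans (le_of_eq ?_)
  have e4 : (4 : ℝ) = 2 ^ 2 := by norm_num
  rw [e4, ← pow_mul, ← pow_mul]
  congr 1
  ring

theorem mult {u v w : ℤ} (hw : w = 1 ∨ w = -1) {a m : ℕ} (ha : Squarefree a)
    (hm : Squarefree m) (h8 : a % 8 = 1)
    (hsq : ∀ p : ℕ, p.Prime → p ≠ 2 → (p : ℤ) ∣ u * v * (u ^ 2 - v ^ 2) →
      IsSquare (a : ZMod p) ∧ ¬ p ∣ a) :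
    Admissible u v (w * part a m) ↔ Admissible u v (w * m) := by
  rw [adm_iff, adm_iff, part_eq]
  exact ad_mul hw ha hm h8 hsq

theorem primes {u v : ℤ} (h : Pair u v) (n : ℕ) : ∃ a : ℕ, n < a ∧ a.Prime ∧ a % 8 = 1 ∧
    ∀ p : ℕ, p.Prime → p ≠ 2 → (p : ℤ) ∣ u * v * (u ^ 2 - v ^ 2) →
      IsSquare (a : ZMod p) ∧ ¬ p ∣ a := by
  have hne : u * v * (u ^ 2 - v ^ 2) ≠ 0 :=
    mul_ne_zero (mul_ne_zero h.left h.right) (sub_ne_zero.2 h.ne)
  have hk : 8 * (u * v * (u ^ 2 - v ^ 2)).natAbs ≠ 0 :=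
    mul_ne_zero (by norm_num) (Int.natAbs_ne_zero.2 hne)
  obtain ⟨a, ha, hn, h1⟩ := Nat.exists_prime_gt_modEq_one n hk
  refine ⟨a, hn, ha, ?_, fun p hp hp2 hd => ?_⟩
  · exact h1.of_dvd (Dvd.intro _ rfl)
  · have h2 : a ≡ 1 [MOD p] := h1.of_dvd ((Int.natCast_dvd.1 hd).mul_left 8)
    have : Fact p.Prime := ⟨hp⟩
    have h3 : (a : ZMod p) = 1 := by
      have := (ZMod.natCast_eq_natCast_iff a 1 p).2 h2
      rwa [Nat.cast_one] at this
    refine ⟨by rw [h3]; exact ⟨1, (mul_one 1).symm⟩, fun hd' => ?_⟩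
    have h4 := (ZMod.natCast_eq_zero_iff a p).2 hd'
    rw [h3] at h4
    exact one_ne_zero h4

end

/-- the classification -/
theorem classes {a b : ℤ} (hb : IsSquare b) (hd : IsSquare (a ^ 2 - 4 * b)) (hb0 : b ≠ 0)
    (hd0 : a ^ 2 - 4 * b ≠ 0) : ∃ (u v D : ℤ) (c : ℚ), Pair u v ∧ Squarefree D ∧ c ≠ 0 ∧
      (a : ℚ) = c ^ 2 * ca u v D ∧ (b : ℚ) = c ^ 4 * cb u v D := by
  obtain ⟨r, hr⟩ := hb
  obtain ⟨z, hz⟩ := hd
  have hz0 : z ≠ 0 := by
    rintro rfl
    exact hd0 (by rw [hz, mul_zero])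
  have hzq : (z : ℚ) ≠ 0 := Int.cast_ne_zero.2 hz0
  have hrq : (b : ℚ) = r * r := by exact_mod_cast hr
  have hdq : (a : ℚ) ^ 2 - 4 * b = z * z := by exact_mod_cast hz
  have hmul : ((a : ℚ) + z) / 2 * (((a : ℚ) - z) / 2) = b := by
    have : ((a : ℚ) + z) / 2 * (((a : ℚ) - z) / 2) = ((a : ℚ) ^ 2 - z * z) / 4 := by ring
    rw [this, ← hdq]
    ring
  have hbq : (b : ℚ) ≠ 0 := Int.cast_ne_zero.2 hb0
  have h1 : ((a : ℚ) + z) / 2 ≠ 0 := fun h => hbq (by rw [← hmul, h, zero_mul])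
  have h2 : ((a : ℚ) - z) / 2 ≠ 0 := fun h => hbq (by rw [← hmul, h, mul_zero])
  have h3 : ((a : ℚ) + z) / 2 ≠ ((a : ℚ) - z) / 2 := by
    intro h
    exact hzq (by linarith)
  obtain ⟨u, v, D, c, h5, h6, h7, h8, h9⟩ := Pool.Agent.Run7.h289.D18.classify h1 h2 h3
    ⟨r, by rw [hmul, hrq]⟩
  refine ⟨u, v, D, c, pair_iff.2 h5, h6, h7, ?_, ?_⟩
  · have : (a : ℚ) = ((a : ℚ) + z) / 2 + ((a : ℚ) - z) / 2 := by ring
    rw [this, h8, h9]
    unfold ca
    push_cast
    ring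
  · rw [← hmul, h8, h9]
    unfold cb
    push_cast
    ring

end proof

/-- **The 2-isogeny Selmer rank and the rank in the natural order.** -/
theorem result :
    -- the curves
    (∀ a b : ℤ, IsSquare b → IsSquare (a ^ 2 - 4 * b) → b ≠ 0 → a ^ 2 - 4 * b ≠ 0 →
      ∃ (u v D : ℤ) (c : ℚ), Pair u v ∧ Squarefree D ∧ c ≠ 0 ∧ (a : ℚ) = c ^ 2 * ca u v D ∧
        (b : ℚ) = c ^ 4 * cb u v D) ∧
    -- one curve
    (∀ u v D : ℤ, Pair u v → Admissible u v D → ∃ k : ℕ,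
      f (ca u v D) (cb u v D) = k + 1 ∧
      f (-2 * ca u v D) (ca u v D ^ 2 - 4 * cb u v D) = k + 1 ∧
      selmerRank (ca u v D) (cb u v D) = 2 * (k : ℤ) ∧
      Finite (ShaTwo (curve (ca u v D) (cb u v D))) ∧
      2 ^ rank (ca u v D) (cb u v D) * Nat.card (ShaTwo (curve (ca u v D) (cb u v D))) ≤ 4 ^ k ∧
      (Trivial (curve (ca u v D) (cb u v D)) ↔ k = 0) ∧
      (rank (ca u v D) (cb u v D) = 0 ∧ selmerRank (ca u v D) (cb u v D) = 0 ↔ k = 0)) ∧
    -- the joint law in the natural order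
    (∀ (M : ℕ) (a : Fin M → ℕ) (F : Fin M → Finset (ℤ × ℤ × ℤ)), Data a F → ∀ N b : ℕ, 0 < N →
      b.Coprime N → (∃ m, Common a F m ∧ m % N = b) →
      (∀ m, Common a F m → ∃ k, Values a F k m) ∧
      (∀ A : Set (Fin M → ℕ), Proportion (fun m => Common a F m ∧ m % N = b)
        (fun m => ∃ k ∈ A, Values a F k m) (∑' k : A, ∏ i, g (k.1 i))) ∧
      (∀ S : Finset (Fin M), Proportion (fun m => Common a F m ∧ m % N = b)
        (fun m => ∀ i, ∀ t ∈ F i, (rank (ta t (a i) m) (tb t (a i) m) = 0 ∧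
          selmerRank (ta t (a i) m) (tb t (a i) m) = 0 ↔ i ∈ S))
        (η ^ S.card * (1 - η) ^ (M - S.card))) ∧
      (∀ (e : Fin M → ℕ) (t : Fin M → ℤ × ℤ × ℤ), (∀ i, t i ∈ F i) →
        Tendsto (average (fun m => Common a F m ∧ m % N = b) fun m =>
          ∏ i, ((descent (ta (t i) (a i) m) (tb (t i) (a i) m)).ncard : ℝ) ^ e i) atTop
          (𝓝 (∏ i, (2 : ℝ) ^ e i * G (e i))) ∧
        Tendsto (average (fun m => Common a F m ∧ m % N = b) fun m =>
          ∏ i, ((descent (-2 * ta (t i) (a i) m)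
            (ta (t i) (a i) m ^ 2 - 4 * tb (t i) (a i) m)).ncard : ℝ) ^ e i) atTop
          (𝓝 (∏ i, (2 : ℝ) ^ e i * G (e i))) ∧
        ∀ ε : ℝ, 0 < ε → ∀ᶠ X : ℕ in atTop,
          average (fun m => Common a F m ∧ m % N = b) (fun m =>
            ∏ i, ((2 ^ rank (ta (t i) (a i) m) (tb (t i) (a i) m) *
              Nat.card (ShaTwo (curve (ta (t i) (a i) m) (tb (t i) (a i) m))) : ℕ) : ℝ) ^ e i) X ≤
            ∏ i, (G (2 * e i) : ℝ) + ε) ∧
      ∃ α : ℝ, 0 < α ∧ ∀ᶠ X : ℕ in atTop,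
        α * X ≤ (num (fun m => Common a F m ∧ m % N = b) (fun _ => True) X : ℝ)) ∧
    -- existence
    (∀ u v w : ℤ, Pair u v → ((w = 1 ∧ u * v % 2 = 1) ∨ (w = -1 ∧ u * v % 2 = 0)) →
      ∃ m : ℕ, Admissible u v (w * m)) ∧
    -- multipliers
    (∀ u v : ℤ, Pair u v →
      (∀ (w : ℤ) (a m : ℕ), (w = 1 ∨ w = -1) → Squarefree a → Squarefree m → a % 8 = 1 →
        (∀ p : ℕ, p.Prime → p ≠ 2 → (p : ℤ) ∣ u * v * (u ^ 2 - v ^ 2) →
          IsSquare (a : ZMod p) ∧ ¬ p ∣ a) →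
        (Admissible u v (w * part a m) ↔ Admissible u v (w * m))) ∧
      ∀ n : ℕ, ∃ a : ℕ, n < a ∧ a.Prime ∧ a % 8 = 1 ∧
        ∀ p : ℕ, p.Prime → p ≠ 2 → (p : ℤ) ∣ u * v * (u ^ 2 - v ^ 2) →
          IsSquare (a : ZMod p) ∧ ¬ p ∣ a) ∧
    HasSum g 1 ∧ 0.2887 < η ∧ η < 0.2889 := by
  refine ⟨fun a b h1 h2 h3 h4 => classes h1 h2 h3 h4, ?_,
    fun M a F h N b hN hbc hex => ⟨fun m hm => exists_values h hm,
    law h hN hbc hex, patterns h hN hbc hex, fun e t ht =>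
      ⟨(moments h hN hbc hex e t ht).1, (moments h hN hbc hex e t ht).2,
        sha_avg h hN hbc hex e t ht⟩, low h hN hbc hex⟩, ?_,
    fun u v h => ⟨fun w a m hw ha hm h8 hsq => mult hw ha hm h8 hsq, primes h⟩, ?_,
    Pool.Agent.N916.GB.eta_bounds.1, Pool.Agent.N916.GB.eta_bounds.2⟩
  · intro u v D h hD
    obtain ⟨k, -, h1⟩ := core' h hD
    exact ⟨k, h1⟩
  · intro u v w h hw
    obtain ⟨m, -, hm⟩ := Pool.Agent.Run7.h289.D18.exists_adm (pair_iff.1 h) hw 0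
    have h1 := hm 0 le_rfl
    rw [pow_zero, pow_one, pow_one] at h1
    exact ⟨m, adm_iff.2 h1⟩
  · have e : g = Run7.h843.L.gk := funext g_eq
    rw [e]
    exact Pool.Agent.Run7.h843.G.gk_hasSum

end Pool.Agent.Results.MP_e2b281_nt.NaturalOrderJointLaw
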