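import Pool.Agent.Run7.h268.U.Sim

/-!
# Thin families of quadratic twists, simultaneously for arbitrarily many elliptic curves with a rational
# point of order two: the exact joint law of `s`, and `rank = s = 0` for ALL the curves with `s = 0` for
# an explicit share which does not depend on the number of the curves

The notation of the problem: `E : y² = x³ + a x² + b x`, `2 ^ f a b` is the order of the group of the
squarefree `b₁ ∣ b` for which `N² = b₁ M⁴ + a M² e² + (b / b₁) e⁴` is solvable in `ℝ` and in all `ℚ_p`,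
`s = f a b + f (-2a) (a² - 4b) - 2`. The question is whether `rank E(ℚ)` and `s` have the same parity.
The twists are `E^D : y² = x³ + a D x² + b D² x`; `selmerRank a b D` is `s` of `E^D`, so
`selmerRank a b 1 = s(E)`.

`Good a b l l'`: `l, l' ≥ 5` are primes which do not divide `a`, the exponent of `l` in `b` is odd and so is
the exponent of `l'` in `a² - 4 b`. Such `l`, `l'` exist for all coprime `a`, `b` for which neither `b`
nor `a² - 4 b` is `±1`, `±2`, `±3` or `±6` times a square. Then all twists `E^d` by integers `d` (positive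
or negative) prime to `l l'` satisfy the condition for the same `l`, `l'`. Nothing is assumed on `s`.

Let `E_1, …, E_k` be curves which satisfy the condition for the same `l`, `l'`, for instance
finitely many twists `E^d` of one curve, and let `8 b (a² - 4 b)` divide `N` for all of them.
The primes of the first kind are the `p` which are not a square modulo `l` and `1` modulo the part of
`N` which is prime to `l`; those of the second kind are defined in the same way with `l'`. Both
kinds have positive density. `D = p_1 ⋯ p_n` is a product of different primes, of the first kind for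
the indices in `u` and of the second kind for the others, `#u` and `n - #u` even. `M` is the matrix
of the symbols `(p / p')` over `𝔽₂`, `p` of the first and `p'` of the second kind.

1. For all these `D` and all `j` we have `f₁(E_j^D) = f₁(E_j) + #u - rank M`,
   `f₂(E_j^D) = f₂(E_j) + (n - #u) - rank M`, so `s(E_j^D) = s(E_j) + n - 2 rank M`.
2. Let the primes be taken from an ARBITRARY set `S` which contains a positive proportion of all primes,
   and these of both kinds. There are between `c X (log log X)^(n-1)/log X` and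
   `C X (log log X)^(n-1)/log X` such `D` up to `X`, and `s(E_j^D) = s(E_j) + n - 2 ρ` for ALL `j` for
   exactly the share of the matrices of rank `ρ` among ALL `(n - #u) × #u` matrices over `𝔽₂`.
3. If `#u = n - #u = m` then `s(E_j^D) = s(E_j)` for all `j` for exactly the share
   `(1 - 1/2) (1 - 1/4) ⋯ (1 - 2^(-m)) > 0.2887`, and for all these `D` we have `rank E_j^D(ℚ) = 0` and
   `Ш(E_j^D)[2] = 0` for all `j` with `s(E_j) = 0`: for these curves the question has the answer YES.
-/

set_option autoImplicit false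

open Filter Topology
open scoped Classical

namespace Pool.Agent.Results.MP_e2b281_nt.SimultaneousThinTwists

open Run7.h268.U.Thin (Good modulus f f₁ f₂ selmerRank rank twist ShaTwo Mt count Proportion prop)
open Run7.h268.U.Sim (Kind Family Dense)

section proof

open Run7.h268.U.Thin (card_n card_mat two_le prop_congr)
open Run7.h268.U.Sim (law_all fam_ne)

variable {l l' N n k : ℕ} {a b : Fin (k + 1) → ℤ} {u : Finset (Fin n)}

theorem law_rank (h : ∀ j, Good (a j) (b j) l l') (hN : ∀ j, modulus (a j) (b j) ∣ N)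
    (hu : Even u.card) (hu' : Even uᶜ.card) (hn : 1 ≤ n)
    {S : Set ℕ} (hS : Dense S N l) (hS' : Dense S N l') (ρ : ℕ) :
    Proportion (Family S N l l' u)
      (fun D => ∀ j, selmerRank (a j) (b j) D = selmerRank (a j) (b j) 1 + (n - 2 * ρ))
      (prop (uᶜ : Finset (Fin n)) u ρ) := by
  have h1 := (law_all h hN hu hu' hn hS hS').2
    fun s => ∀ j, s j = selmerRank (a j) (b j) 1 + (n - 2 * ρ)
  unfold prop
  rw [card_mat]
  have h2 : Nat.card {M : Matrix (uᶜ : Finset (Fin n)) u (ZMod 2) //
      ∀ j, selmerRank (a j) (b j) 1 + ((u.card : ℤ) + uᶜ.card - 2 * M.rank) =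
        selmerRank (a j) (b j) 1 + (n - 2 * ρ)} =
      Nat.card {M : Matrix (uᶜ : Finset (Fin n)) u (ZMod 2) // M.rank = ρ} := by
    refine Nat.card_congr (Equiv.subtypeEquivRight fun M => ?_)
    rw [card_n]
    constructor
    · intro h3
      have := h3 0
      omega
    · intro h3 j
      rw [h3]
  rw [h2] at h1
  push_cast
  exact h1

theorem same (h : ∀ j, Good (a j) (b j) l l') (hN : ∀ j, modulus (a j) (b j) ∣ N)
    (hu : Even u.card) (hu' : Even uᶜ.card) (hn : 1 ≤ n)
    {S : Set ℕ} (hS : Dense S N l) (hS' : Dense S N l') (hc : u.card = uᶜ.card) :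
    Proportion (Family S N l l' u)
      (fun D => ∀ j, selmerRank (a j) (b j) D = selmerRank (a j) (b j) 1)
      (∏ i ∈ Finset.range u.card, (1 - (1 / 2 : ℝ) ^ (i + 1))) := by
  have h1 := law_rank h hN hu hu' hn hS hS' u.card
  have h2 : prop (uᶜ : Finset (Fin n)) u u.card =
      ∏ i ∈ Finset.range u.card, (1 - (1 / 2 : ℝ) ^ (i + 1)) := by
    rw [← Run7.h268.U.card_full u uᶜ rfl hc.symm]
    unfold prop
    rw [card_mat]
    push_cast
    rfl
  rw [h2] at h1
  refine prop_congr (fun D _ => forall_congr' fun j => ?_) h1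
  have h3 := card_n (u := u)
  rw [← hc] at h3
  constructor <;> intro h4 <;> omega

end proof

/-- **Simultaneous twists.** -/
theorem result :
    -- almost all curves
    (∀ a b : ℤ, IsCoprime a b →
      (∀ c : ℤ, c ∣ 6 → ¬ IsSquare (c * b) ∧ ¬ IsSquare (c * (a ^ 2 - 4 * b))) →
      ∃ l l' : ℕ, Good a b l l') ∧
    -- the twists of one curve
    (∀ (a b : ℤ) (l l' : ℕ), Good a b l l' → ∀ d : ℤ, ¬ (l : ℤ) ∣ d → ¬ (l' : ℤ) ∣ d →
      Good (a * d) (b * d ^ 2) l l') ∧
    -- several curves
    ∀ (k : ℕ) (a b : Fin (k + 1) → ℤ) (l l' N : ℕ), (∀ j, Good (a j) (b j) l l') →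
      (∀ j, modulus (a j) (b j) ∣ N) →
      -- all primes
      (N ≠ 0 → Dense Set.univ N l ∧ Dense Set.univ N l') ∧
      ∀ (n : ℕ) (u : Finset (Fin n)), Even u.card → Even uᶜ.card →
        -- the symbols determine the exponents
        (∀ p : Fin n → ℕ, Function.Injective p →
          (∀ i, (i ∈ u → Kind N l (p i)) ∧ (i ∉ u → Kind N l' (p i))) → ∀ j,
          f₁ (a j) (b j) (∏ i, p i) = f (a j) (b j) + (u.card - (Mt u p).rank) ∧
          f₂ (a j) (b j) (∏ i, p i) =
            f (-2 * a j) (a j ^ 2 - 4 * b j) + (uᶜ.card - (Mt u p).rank) ∧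
          selmerRank (a j) (b j) (∏ i, p i) =
            selmerRank (a j) (b j) 1 + (n - 2 * (Mt u p).rank)) ∧
        -- the law
        (1 ≤ n → ∀ S : Set ℕ, Dense S N l → Dense S N l' →
          (∃ (c C : ℝ) (X₀ : ℕ), 0 < c ∧ 0 < C ∧ ∀ X : ℕ, X₀ ≤ X →
            c * (X * Real.log (Real.log X) ^ (n - 1) / Real.log X) ≤
              (count (Family S N l l' u) X : ℝ) ∧
            (count (Family S N l l' u) X : ℝ) ≤
              C * (X * Real.log (Real.log X) ^ (n - 1) / Real.log X)) ∧
          (∀ ρ : ℕ, Proportion (Family S N l l' u)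
            (fun D => ∀ j,
              selmerRank (a j) (b j) D = selmerRank (a j) (b j) 1 + (n - 2 * ρ))
            (prop (uᶜ : Finset (Fin n)) u ρ)) ∧
          -- as many primes of the first as of the second kind
          (u.card = uᶜ.card →
            0.2887 < ∏ i ∈ Finset.range u.card, (1 - (1 / 2 : ℝ) ^ (i + 1)) ∧
            Proportion (Family S N l l' u)
              (fun D => ∀ j, selmerRank (a j) (b j) D = selmerRank (a j) (b j) 1 ∧
                (selmerRank (a j) (b j) 1 = 0 → rank (twist (a j) (b j) D) = 0 ∧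
                  Nat.card (ShaTwo (twist (a j) (b j) D)) = 1))
              (∏ i ∈ Finset.range u.card, (1 - (1 / 2 : ℝ) ^ (i + 1))))) := by
  refine ⟨fun a b => Run7.h268.U.Thin.exists_good, fun a b l l' h d hd hd' =>
    Run7.h268.U.Sim.good_twist h hd hd', fun k a b l l' N h hN =>
    ⟨fun hN0 => ?_, fun n u hu hu' => ⟨fun p hp hk j => ?_, fun hn S hS hS' =>
        ⟨(Run7.h268.U.Sim.law_all h hN hu hu' hn hS hS').1, law_rank h hN hu hu' hn hS hS',
          fun hc => ⟨Run7.h268.U.prod_gt _, ?_⟩⟩⟩⟩⟩
  · have h8 : 8 ∣ N := (Run7.h268.U.Thin.eight).trans (hN 0)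
    exact ⟨Run7.h268.U.Sim.dense_kind (h 0).prime (h 0).five hN0 h8,
      Run7.h268.U.Sim.dense_kind (h 0).prime' (h 0).five' hN0 h8⟩
  · have hpr := Run7.h268.U.Sim.pr_of (h j) (hN j) hp hk
    obtain ⟨h1, h2⟩ := Run7.h268.U.Thin.exps_eq' (h j) hpr hu hu'
    refine ⟨h1, h2, ?_⟩
    rw [Run7.h268.U.Thin.sel_rank' (h j) hpr hu hu', Run7.h268.U.Thin.card_n]
  · refine Run7.h268.U.Thin.prop_congr (fun D hD => forall_congr' fun j => ?_)
      (same h hN hu hu' hn hS hS' hc)
    constructor
    · intro h1
      refine ⟨h1, fun h0 => ?_⟩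
      obtain ⟨-, h3, h4, h5⟩ := Run7.h268.U.Thin.two_le (h j) (Run7.h268.U.Sim.fam_ne hD)
      rw [h1, h0, Int.toNat_zero, pow_zero] at h5
      have h6 : 0 < 2 ^ rank (twist (a j) (b j) D) := by positivity
      have h7 : 2 ^ rank (twist (a j) (b j) D) * Nat.card (ShaTwo (twist (a j) (b j) D)) = 1 := by
        have := Nat.mul_pos h6 h4
        omega
      have h8 : 2 ^ rank (twist (a j) (b j) D) = 1 := Nat.dvd_one.1 ⟨_, h7.symm⟩
      have h9 : Nat.card (ShaTwo (twist (a j) (b j) D)) = 1 :=
        Nat.dvd_one.1 ⟨2 ^ rank (twist (a j) (b j) D), by rw [mul_comm]; exact h7.symm⟩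
      refine ⟨?_, h9⟩
      by_contra h10
      have h11 : 1 ≤ rank (twist (a j) (b j) D) := by omega
      have h12 : 2 ≤ 2 ^ rank (twist (a j) (b j) D) := by
        calc 2 = 2 ^ 1 := rfl
          _ ≤ _ := Nat.pow_le_pow_right (by norm_num) h11
      omega
    · exact fun h1 => h1.1

end Pool.Agent.Results.MP_e2b281_nt.SimultaneousThinTwists
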